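import Pool.Agent.Helper15.RS.Sp

/-!
# Project RS: extension of an absolute value to the algebraic closure, with automorphisms
-/

set_option autoImplicit false

namespace Pool.Agent.Helper15.RS

open Polynomial UniformSpace

universe u v

/-- the completion of `L` -/
def Cm (L : Type u) [NormedField L] : Type u := Completion L

noncomputable instance (L : Type u) [NormedField L] : NormedField (Cm L) :=
  inferInstanceAs (NormedField (Completion L))

instance (L : Type u) [NormedField L] : CompleteSpace (Cm L) :=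
  inferInstanceAs (CompleteSpace (Completion L))

/-- the embedding into the completion -/
def cm (L : Type u) [NormedField L] : L →+* Cm L := (Completion.coeRingHom : L →+* Completion L)

section

variable {L : Type u} [NormedField L]

theorem cm_norm (z : L) : ‖cm L z‖ = ‖z‖ := Completion.norm_coe z

theorem cm_dense : DenseRange (cm L) := Completion.denseRange_coe (α := L)

theorem cm_cont : Continuous (cm L) := Completion.continuous_coe L

theorem co_add (h : ∀ x y : L, ‖x + y‖ ≤ max ‖x‖ ‖y‖) (x y : Cm L) :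
    ‖x + y‖ ≤ max ‖x‖ ‖y‖ := by
  refine cm_dense.induction_on₂ (p := fun x y => ‖x + y‖ ≤ max ‖x‖ ‖y‖)
    (isClosed_le (by fun_prop) (by fun_prop)) (fun x y => ?_) x y
  rw [← map_add, cm_norm, cm_norm, cm_norm]
  exact h x y

theorem co_res {k : Type v} [Field k] [Algebra k L]
    (hu : ∀ x y : L, ‖x + y‖ ≤ max ‖x‖ ‖y‖)
    (hres : ∀ z : L, ‖z‖ = 1 → ∃ c : k, ‖z - algebraMap k L c‖ < 1) (z : Cm L)
    (hz : ‖z‖ = 1) : ∃ c : k, ‖z - cm L (algebraMap k L c)‖ < 1 := by
  obtain ⟨a, ha⟩ := (cm_dense (L := L)).exists_dist_lt z one_pos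
  rw [dist_eq_norm] at ha
  have hadd := co_add hu
  have hsub : ∀ x y : Cm L, ‖x - y‖ ≤ max ‖x‖ ‖y‖ := by
    intro x y
    have := hadd x (-y)
    rwa [norm_neg, ← sub_eq_add_neg] at this
  have ha1 : ‖a‖ = 1 := by
    rw [← cm_norm a]
    apply le_antisymm
    · have h1 := hsub z (z - cm L a)
      rw [sub_sub_cancel, hz, max_eq_left ha.le] at h1
      exact h1
    · have h1 := hadd (z - cm L a) (cm L a)
      rw [sub_add_cancel, hz] at h1
      rcases le_max_iff.1 h1 with h2 | h2
      · exact absurd ha (not_lt.2 h2)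
      · exact h2
  obtain ⟨c, hc⟩ := hres a ha1
  refine ⟨c, ?_⟩
  have h1 := hadd (z - cm L a) (cm L a - cm L (algebraMap k L c))
  rw [sub_add_sub_cancel] at h1
  refine h1.trans_lt (max_lt ha ?_)
  rw [← map_sub, cm_norm]
  exact hc

theorem co_iso (τ : L ≃+* L) (hτ : ∀ z, ‖τ z‖ = ‖z‖) : ∃ τ' : Cm L ≃+* Cm L,
    (∀ z, ‖τ' z‖ = ‖z‖) ∧ ∀ z : L, τ' (cm L z) = cm L (τ z) := by
  have hc : Continuous τ := by
    have : Isometry τ := AddMonoidHomClass.isometry_of_norm τ hτ
    exact this.continuous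
  have hc' : Continuous τ.symm := by
    have : Isometry τ.symm := AddMonoidHomClass.isometry_of_norm τ.symm fun z => by
      rw [← hτ (τ.symm z), RingEquiv.apply_symm_apply]
    exact this.continuous
  let τ' : Cm L ≃+* Cm L := (Completion.mapRingEquiv τ hc hc' : Completion L ≃+* Completion L)
  have h1 : ∀ z : L, τ' (cm L z) = cm L (τ z) := fun z =>
    Completion.mapRingHom_coe (f := (τ : L →+* L)) hc z
  have h2 : Continuous τ' := (Completion.continuous_map : Continuous (Completion.map τ))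
  refine ⟨τ', fun z => ?_, h1⟩
  refine cm_dense.induction_on (p := fun z => ‖τ' z‖ = ‖z‖) z
    (isClosed_eq (h2.norm) (by fun_prop)) (fun z => ?_)
  rw [h1, cm_norm, cm_norm, hτ]

end

/-- an automorphism of `M` over an automorphism of `L` preserves the algebraically closed field of
the elements which are algebraic over `L` -/
theorem range_stable {L Ω M : Type*} [Field L] [Field Ω] [IsAlgClosed Ω] [Field M] [Algebra L Ω]
    [Algebra.IsAlgebraic L Ω] [Algebra L M] (ι : Ω →ₐ[L] M) (τ : L ≃+* L) (σ : M ≃+* M)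
    (hσ : ∀ z : L, σ (algebraMap L M z) = algebraMap L M (τ z)) (z : Ω) :
    σ (ι z) ∈ (ι : Ω →+* M).range := by
  have hint : IsIntegral L z := (Algebra.IsAlgebraic.isAlgebraic z).isIntegral
  have hm := minpoly.ne_zero hint
  set P : Polynomial Ω := ((minpoly L z).map (τ : L →+* L)).map (algebraMap L Ω) with hP
  have hP0 : P ≠ 0 := by
    rw [hP, Polynomial.map_ne_zero_iff (algebraMap L Ω).injective,
      Polynomial.map_ne_zero_iff (τ : L →+* L).injective]
    exact hm
  refine (IsAlgClosed.splits P).mem_range_of_isRoot hP0 ?_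
  rw [IsRoot.def, hP, eval_map, eval₂_map, eval₂_map]
  have h1 : ((((ι : Ω →+* M).comp (algebraMap L Ω)).comp (τ : L →+* L)) : L →+* M) =
      (σ : M →+* M).comp ((ι : Ω →+* M).comp (algebraMap L Ω)) := by
    ext a
    have h2 : ι (algebraMap L Ω (τ a)) = algebraMap L M (τ a) := ι.commutes _
    have h3 : ι (algebraMap L Ω a) = algebraMap L M a := ι.commutes _
    show ι (algebraMap L Ω (τ a)) = σ (ι (algebraMap L Ω a))
    rw [h2, h3, hσ]
  rw [h1]
  have h4 : eval₂ ((σ : M →+* M).comp ((ι : Ω →+* M).comp (algebraMap L Ω))) (σ (ι z))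
      (minpoly L z) = σ (ι (eval₂ (algebraMap L Ω) z (minpoly L z))) := by
    have h5 := hom_eval₂ (minpoly L z) (algebraMap L Ω) (ι : Ω →+* M) z
    have h6 := hom_eval₂ (minpoly L z) ((ι : Ω →+* M).comp (algebraMap L Ω)) (σ : M →+* M)
      ((ι : Ω →+* M) z)
    rw [← h5] at h6
    exact h6.symm
  rw [h4, ← aeval_def, minpoly.aeval, map_zero, map_zero]

/-- the restriction of an automorphism to a stable subfield -/
theorem exists_restrict {Ω M : Type*} [Field Ω] [Field M] (ι : Ω →+* M) (σ : M ≃+* M)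
    (h1 : ∀ z, σ (ι z) ∈ ι.range) (h2 : ∀ z, σ.symm (ι z) ∈ ι.range) :
    ∃ f : Ω ≃+* Ω, ∀ z, ι (f z) = σ (ι z) := by
  choose g hg using fun z => RingHom.mem_range.1 (h1 z)
  choose g' hg' using fun z => RingHom.mem_range.1 (h2 z)
  refine ⟨{ toFun := g
            invFun := g'
            left_inv := fun z => ι.injective ?_
            right_inv := fun z => ι.injective ?_
            map_mul' := fun a b => ι.injective ?_
            map_add' := fun a b => ι.injective ?_ }, hg⟩
  · rw [hg', hg, RingEquiv.symm_apply_apply]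
  · rw [hg, hg', RingEquiv.apply_symm_apply]
  · rw [hg, map_mul, map_mul, map_mul, hg, hg]
  · rw [hg, map_add, map_add, map_add, hg, hg]

/-- The extension of a nonarchimedean absolute value with residue field `k` to the algebraic
closure, such that every isometry extends to an isometry. -/
theorem closure_abs {k : Type v} {L Ω : Type u} [Field k] [IsAlgClosed k] [NormedField L]
    [Algebra k L] (hNA : NA k (fun z : L => ‖z‖)) (hnt : ∃ z : L, z ≠ 0 ∧ ‖z‖ ≠ 1)
    (hres : ∀ z : L, ‖z‖ = 1 → ∃ c : k, ‖z - algebraMap k L c‖ < 1)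
    [Field Ω] [IsAlgClosed Ω] [Algebra L Ω] [Algebra.IsAlgebraic L Ω] [Algebra k Ω]
    [IsScalarTower k L Ω] :
    ∃ w : Ω → ℝ, NA k w ∧ (∀ z, w z = 1 → ∃ c : k, w (z - algebraMap k Ω c) < 1) ∧
      (∀ z : L, w (algebraMap L Ω z) = ‖z‖) ∧
      ∀ τ : L ≃+* L, (∀ z, ‖τ z‖ = ‖z‖) → ∃ σ : Ω ≃+* Ω, (∀ z, w (σ z) = w z) ∧
        ∀ z : L, σ (algebraMap L Ω z) = algebraMap L Ω (τ z) := by
  have hu : ∀ x y : L, ‖x + y‖ ≤ max ‖x‖ ‖y‖ := hNA.add
  have hK : ∃ x : Cm L, x ≠ 0 ∧ ‖x‖ ≠ 1 := by
    obtain ⟨z, hz, hz1⟩ := hnt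
    refine ⟨cm L z, ?_, ?_⟩
    · rw [Ne, map_eq_zero_iff _ (cm L).injective]
      exact hz
    · rwa [cm_norm]
  let : NontriviallyNormedField (Cm L) := NontriviallyNormedField.ofNormNeOne hK
  have : IsUltrametricDist (Cm L) :=
    IsUltrametricDist.isUltrametricDist_of_isNonarchimedean_norm fun x y => co_add hu x y
  let : Algebra L (Cm L) := (cm L).toAlgebra
  let : Algebra k (Cm L) := ((cm L).comp (algebraMap k L)).toAlgebra
  have : IsScalarTower k L (Cm L) := IsScalarTower.of_algebraMap_eq fun _ => rfl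
  have hLK : ∀ z : L, algebraMap L (Cm L) z = cm L z := fun _ => rfl
  have hkK : ∀ c : k, algebraMap k (Cm L) c = cm L (algebraMap k L c) := fun _ => rfl
  have hNAK : NA k (fun z : Cm L => ‖z‖) :=
    { zero := norm_zero
      pos := fun z hz => norm_pos_iff.2 hz
      mul := fun a b => norm_mul a b
      add := fun a b => co_add hu a b
      alg := fun c hc => by
        rw [hkK, cm_norm]
        exact hNA.alg c hc }
  have hresK : ∀ z : Cm L, ‖z‖ = 1 → ∃ c : k, ‖z - algebraMap k (Cm L) c‖ < 1 :=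
    fun z hz => co_res hu hres z hz
  let M := AlgebraicClosure (Cm L)
  have : IsScalarTower k L M := IsScalarTower.of_algebraMap_eq fun _ => by
    rw [IsScalarTower.algebraMap_apply k (Cm L) M, IsScalarTower.algebraMap_apply L (Cm L) M,
      IsScalarTower.algebraMap_apply k L (Cm L)]
  let ι : Ω →ₐ[L] M := IsAlgClosed.lift
  have hιk : ∀ c : k, ι (algebraMap k Ω c) = algebraMap k M c := by
    intro c
    rw [IsScalarTower.algebraMap_apply k L Ω, ι.commutes, ← IsScalarTower.algebraMap_apply]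
  have hsp := sp_NA (M := M) hNAK
  refine ⟨fun z => spectralNorm (Cm L) M (ι z), ?_, ?_, ?_, ?_⟩
  · exact
      { zero := by
          show spectralNorm (Cm L) M (ι 0) = 0
          rw [map_zero, hsp.zero]
        pos := fun z hz => hsp.pos _ (by rwa [Ne, map_eq_zero_iff ι ι.injective])
        mul := fun a b => by
          show spectralNorm (Cm L) M (ι (a * b)) = _
          rw [map_mul, hsp.mul]
        add := fun a b => by
          show spectralNorm (Cm L) M (ι (a + b)) ≤ _
          rw [map_add]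
          exact hsp.add _ _
        alg := fun c hc => by
          show spectralNorm (Cm L) M (ι (algebraMap k Ω c)) = 1
          rw [hιk]
          exact hsp.alg c hc }
  · intro z hz
    obtain ⟨c, hc⟩ := sp_res hNAK hresK (ι z) hz
    refine ⟨c, ?_⟩
    show spectralNorm (Cm L) M (ι (z - algebraMap k Ω c)) < 1
    rw [map_sub, hιk]
    exact hc
  · intro z
    show spectralNorm (Cm L) M (ι (algebraMap L Ω z)) = ‖z‖
    rw [ι.commutes, IsScalarTower.algebraMap_apply L (Cm L) M, spectralNorm_extends, hLK,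
      cm_norm]
  · intro τ hτ
    obtain ⟨τ', hτ'1, hτ'2⟩ := co_iso τ hτ
    let σ' : M ≃+* M := IsAlgClosure.equivOfEquiv M M τ'
    have hσ'K : ∀ a : Cm L, σ' (algebraMap (Cm L) M a) = algebraMap (Cm L) M (τ' a) :=
      fun a => IsAlgClosure.equivOfEquiv_algebraMap M M τ' a
    have hσ'L : ∀ a : L, σ' (algebraMap L M a) = algebraMap L M (τ a) := by
      intro a
      rw [IsScalarTower.algebraMap_apply L (Cm L) M, IsScalarTower.algebraMap_apply L (Cm L) M, hσ'K, hLK,
        hLK, hτ'2]
    have hσ'L' : ∀ a : L, σ'.symm (algebraMap L M a) = algebraMap L M (τ.symm a) := by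
      intro a
      rw [RingEquiv.symm_apply_eq, hσ'L, RingEquiv.apply_symm_apply]
    obtain ⟨σ, hσ⟩ := exists_restrict (ι : Ω →+* M) σ' (range_stable ι τ σ' hσ'L)
      (range_stable ι τ.symm σ'.symm hσ'L')
    refine ⟨σ, fun z => ?_, fun z => ?_⟩
    · show spectralNorm (Cm L) M (ι (σ z)) = spectralNorm (Cm L) M (ι z)
      have h1 : ι (σ z) = σ' (ι z) := hσ z
      rw [h1]
      exact sp_iso τ' hτ'1 σ' hσ'K (ι z)
    · apply (ι : Ω →+* M).injective
      rw [hσ]
      show σ' (ι (algebraMap L Ω z)) = ι (algebraMap L Ω (τ z))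
      rw [ι.commutes, ι.commutes, hσ'L]

end Pool.Agent.Helper15.RS
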