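import Pool.Agent.Helper15.RS.Cl

/-!
# Project RS: extension of an absolute value to the algebraic closure, second form
-/

set_option autoImplicit false

namespace Pool.Agent.Helper15.RS

universe u v

/-- the normed field given by an absolute value -/
noncomputable abbrev nf {k : Type v} {L : Type u} [Field k] [hL : Field L] [Algebra k L] (w : L → ℝ)
    (h : NA k w) : NormedField L :=
  { hL with
    norm := w
    dist := fun a b => w (-a + b)
    dist_self := fun a => by
      show w (-a + a) = 0
      rw [neg_add_cancel, h.zero]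
    dist_comm := fun a b => by
      show w (-a + b) = w (-b + a)
      rw [← h.neg (-a + b), neg_add, neg_neg, add_comm]
    dist_triangle := fun a b c => by
      show w (-a + c) ≤ w (-a + b) + w (-b + c)
      have h1 := h.add (-a + b) (-b + c)
      rw [show -a + b + (-b + c) = -a + c by ring] at h1
      exact h1.trans (max_le_add_of_nonneg (h.nonneg _) (h.nonneg _))
    edist_dist := fun a b => by rw [ENNReal.ofReal_eq_coe_nnreal]
    eq_of_dist_eq_zero := fun {a b} hab => by
      have h1 := h.eq_zero hab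
      exact (neg_add_eq_zero.1 h1)
    dist_eq := fun a b => rfl
    norm_mul := fun a b => h.mul a b }

theorem closure_abs' {k : Type v} {L Ω : Type u} [Field k] [IsAlgClosed k] [Field L]
    [Algebra k L] (v : L → ℝ) (hNA : NA k v) (hnt : ∃ z : L, z ≠ 0 ∧ v z ≠ 1)
    (hres : ∀ z : L, v z = 1 → ∃ c : k, v (z - algebraMap k L c) < 1)
    [Field Ω] [IsAlgClosed Ω] [Algebra L Ω] [Algebra.IsAlgebraic L Ω] [Algebra k Ω]
    [IsScalarTower k L Ω] :
    ∃ w : Ω → ℝ, NA k w ∧ (∀ z, w z = 1 → ∃ c : k, w (z - algebraMap k Ω c) < 1) ∧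
      (∀ z : L, w (algebraMap L Ω z) = v z) ∧
      ∀ τ : L ≃+* L, (∀ z, v (τ z) = v z) → ∃ σ : Ω ≃+* Ω, (∀ z, w (σ z) = w z) ∧
        ∀ z : L, σ (algebraMap L Ω z) = algebraMap L Ω (τ z) := by
  let : NormedField L := nf v hNA
  exact closure_abs (L := L) (Ω := Ω) hNA hnt hres

end Pool.Agent.Helper15.RS
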