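import Pool.Agent.Helper15.RS.Rk

/-!
# Project RS: isometries permuting the roots
-/

set_option autoImplicit false

namespace Pool.Agent.Helper15.RS

open MvPolynomial IntermediateField

/-- the rotations of `s` disjoint blocks of `p` letters -/
def rot {p s m n : ℕ} (β : (Fin s × ZMod p) ⊕ Fin m ≃ Fin n) :
    Multiplicative (Fin s → ZMod p) →* Equiv.Perm (Fin n) where
  toFun v := β.permCongr (Equiv.sumCongr
    (Equiv.prodCongrRight fun j => Equiv.addRight (v.toAdd j)) (Equiv.refl _))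
  map_one' := by
    refine Equiv.ext fun y => ?_
    obtain ⟨z, rfl⟩ := β.surjective y
    rw [Equiv.permCongr_apply, Equiv.symm_apply_apply]
    rcases z with ⟨j, b⟩ | l
    · show β (Sum.inl (j, b + 0)) = _
      rw [add_zero]
      rfl
    · rfl
  map_mul' v v' := by
    refine Equiv.ext fun y => ?_
    obtain ⟨z, rfl⟩ := β.surjective y
    rw [Equiv.Perm.mul_apply, Equiv.permCongr_apply, Equiv.permCongr_apply,
      Equiv.permCongr_apply, Equiv.symm_apply_apply, Equiv.symm_apply_apply]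
    rcases z with ⟨j, b⟩ | l
    · show β (Sum.inl (j, b + (v.toAdd j + v'.toAdd j))) =
        β (Sum.inl (j, b + v'.toAdd j + v.toAdd j))
      rw [add_assoc, add_comm (v'.toAdd j)]
    · rfl

section

variable {p s m n : ℕ} (β : (Fin s × ZMod p) ⊕ Fin m ≃ Fin n)

theorem rot_inl (v : Multiplicative (Fin s → ZMod p)) (j : Fin s) (b : ZMod p) :
    rot β v (β (Sum.inl (j, b))) = β (Sum.inl (j, b + v.toAdd j)) := by
  show β.permCongr _ (β (Sum.inl (j, b))) = _
  rw [Equiv.permCongr_apply, Equiv.symm_apply_apply]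
  rfl

theorem rot_inr (v : Multiplicative (Fin s → ZMod p)) (l : Fin m) :
    rot β v (β (Sum.inr l)) = β (Sum.inr l) := by
  show β.permCongr _ (β (Sum.inr l)) = _
  rw [Equiv.permCongr_apply, Equiv.symm_apply_apply]
  rfl

theorem rot_injective : Function.Injective (rot β) := by
  intro v v' h
  apply Multiplicative.toAdd.injective
  funext j
  have h1 := congrArg (fun e : Equiv.Perm (Fin n) => e (β (Sum.inl (j, 0)))) h
  simp only [rot_inl] at h1
  have h2 := Sum.inl.inj (β.injective h1)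
  have h3 := congrArg Prod.snd h2
  simpa using h3

end

theorem exists_rot (p s n : ℕ) [NeZero p] (h : s * p ≤ n) :
    Nonempty ((Fin s × ZMod p) ⊕ Fin (n - s * p) ≃ Fin n) := by
  refine ⟨Fintype.equivOfCardEq ?_⟩
  rw [Fintype.card_sum, Fintype.card_prod, Fintype.card_fin, ZMod.card,
    Fintype.card_fin, Fintype.card_fin]
  omega

universe u v

open scoped IntermediateField.algebraAdjoinAdjoin in
/-- as many elements as the transcendence degree, over which everything is algebraic, are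
independent -/
theorem indep_of_alg {k : Type v} {Ω : Type u} [Field k] [Field Ω] [Algebra k Ω] {ι ι' : Type}
    [Finite ι] (e : ι ≃ ι') (x : ι' → Ω) (hx : AlgebraicIndependent k x) (u : ι → Ω)
    (hu : Algebra.IsAlgebraic (adjoin k (Set.range u)) Ω) : AlgebraicIndependent k u := by
  have h1 : Algebra.IsAlgebraic (Algebra.adjoin k (Set.range u)) Ω :=
    (IsFractionRing.comap_isAlgebraic_iff (A := Algebra.adjoin k (Set.range u))
      (K := adjoin k (Set.range u)) (C := Ω)).2 hu
  have h2 := hx.lift_cardinalMk_le_trdeg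
  refine (Algebra.IsAlgebraic.isTranscendenceBasis_of_lift_le_trdeg_of_finite k u ?_).1
  have h3 : Cardinal.mk ι = Cardinal.mk ι' := Cardinal.mk_congr e
  rw [h3]
  exact h2

/-- an absolute value for which the rotations of the blocks are induced by isometries -/
theorem exists_abs_rot {k : Type v} {Ω : Type u} [Field k] [IsAlgClosed k] [CharZero k] [Field Ω]
    [IsAlgClosed Ω] [Algebra k Ω] {n : ℕ} (hn : 0 < n) (x : Fin n → Ω)
    (hx : AlgebraicIndependent k x) (hΩ : Algebra.IsAlgebraic (adjoin k (Set.range x)) Ω)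
    (p s m : ℕ) [hp : Fact p.Prime] (β : (Fin s × ZMod p) ⊕ Fin m ≃ Fin n) :
    ∃ w : Ω → ℝ, NA k w ∧ Res k w ∧ ∀ v : Multiplicative (Fin s → ZMod p), ∃ σ ∈ Iso k w,
      ∀ i, σ (x i) = x (rot β v i) := by
  classical
  have : NeZero (p : k) := ⟨Nat.cast_ne_zero.2 hp.out.ne_zero⟩
  have hne : NeZero p := ⟨hp.out.ne_zero⟩
  obtain ⟨ζ, hζ⟩ := HasEnoughRootsOfUnity.exists_primitiveRoot k p
  let ψ : AddChar (ZMod p) k := AddChar.zmodChar p hζ.pow_eq_one
  have hψ : ψ.IsPrimitive := AddChar.zmodChar_primitive_of_primitive_root p hζ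
  let A : k →+* Ω := algebraMap k Ω
  have hpΩ : (p : Ω) ≠ 0 := by
    rw [← map_natCast A]
    exact (map_ne_zero A).2 (Nat.cast_ne_zero.2 hp.out.ne_zero)
  let u : (Fin s × ZMod p) ⊕ Fin m → Ω := Sum.elim
    (fun jb => ∑ c : ZMod p, A (ψ (-(jb.2 * c))) * x (β (Sum.inl (jb.1, c))))
    (fun l => x (β (Sum.inr l)))
  have hul : ∀ j b, u (Sum.inl (j, b)) = ∑ c : ZMod p, A (ψ (-(b * c))) * x (β (Sum.inl (j, c))) :=
    fun j b => rfl
  have hinv : ∀ (j : Fin s) (c : ZMod p), (p : Ω) * x (β (Sum.inl (j, c))) =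
      ∑ b : ZMod p, A (ψ (b * c)) * u (Sum.inl (j, b)) := by
    intro j c
    simp only [hul, Finset.mul_sum]
    rw [Finset.sum_comm]
    have h1 : ∀ c' : ZMod p, ∑ b : ZMod p, A (ψ (b * c)) *
        (A (ψ (-(b * c'))) * x (β (Sum.inl (j, c')))) =
        (if c' = c then (p : Ω) else 0) * x (β (Sum.inl (j, c'))) := by
      intro c'
      have h2 : ∀ b : ZMod p, A (ψ (b * c)) * (A (ψ (-(b * c'))) * x (β (Sum.inl (j, c')))) =
          A (ψ (b * (c - c'))) * x (β (Sum.inl (j, c'))) := by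
        intro b
        rw [← mul_assoc, ← map_mul, ← AddChar.map_add_eq_mul]
        congr 3
        ring
      simp only [h2]
      rw [← Finset.sum_mul, ← map_sum, AddChar.sum_mulShift _ hψ]
      by_cases h : c' = c
      · rw [if_pos h, if_pos (by rw [h, sub_self]), ZMod.card, map_natCast]
      · rw [if_neg h, if_neg (sub_ne_zero.2 (Ne.symm h)), Nat.cast_zero, map_zero]
    simp only [h1, ite_mul, zero_mul, Finset.sum_ite_eq', Finset.mem_univ, if_true]
  have hinr : ∀ l, x (β (Sum.inr l)) = u (Sum.inr l) := fun l => rfl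
  -- the `u` generate a field containing the `x`
  have hle : adjoin k (Set.range x) ≤ adjoin k (Set.range u) := by
    rw [adjoin_le_iff]
    rintro _ ⟨i, rfl⟩
    obtain ⟨z, rfl⟩ := β.surjective i
    have hmem : ∀ z, u z ∈ adjoin k (Set.range u) := fun z => subset_adjoin k _ ⟨z, rfl⟩
    have hA : ∀ c : k, A c ∈ adjoin k (Set.range u) := fun c =>
      (adjoin k (Set.range u)).algebraMap_mem c
    rcases z with ⟨j, c⟩ | l
    · have h1 : x (β (Sum.inl (j, c))) =
          A ((p : k)⁻¹) * ∑ b : ZMod p, A (ψ (b * c)) * u (Sum.inl (j, b)) := by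
        rw [← hinv, map_inv₀, map_natCast, inv_mul_cancel_left₀ hpΩ]
      rw [SetLike.mem_coe, h1]
      exact mul_mem (hA _) (sum_mem fun b _ => mul_mem (hA _) (hmem _))
    · rw [SetLike.mem_coe, hinr]
      exact hmem _
  have hΩu : Algebra.IsAlgebraic (adjoin k (Set.range u)) Ω := by
    refine ⟨fun z => ?_⟩
    obtain ⟨q, hq0, hq⟩ := hΩ.isAlgebraic z
    refine ⟨q.map (inclusion hle).toRingHom, ?_, ?_⟩
    · exact (Polynomial.map_ne_zero_iff (inclusion hle).toRingHom.injective).2 hq0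
    · rw [Polynomial.aeval_def, Polynomial.eval₂_map]
      exact hq
  have hu : AlgebraicIndependent k u := indep_of_alg β x hx u hΩu
  have hneι : Nonempty ((Fin s × ZMod p) ⊕ Fin m) := ⟨β.symm ⟨0, hn⟩⟩
  obtain ⟨w, hw, hr, hσ⟩ := exists_abs u hu hΩu
  refine ⟨w, hw, hr, fun v => ?_⟩
  obtain ⟨σ, hσ1, hσ2⟩ := hσ (Sum.elim (fun jb => ψ (jb.2 * v.toAdd jb.1)) (fun _ => 1)) (by
    rintro (⟨j, b⟩ | l)
    · show ψ _ ≠ 0
      intro h0
      have h1 : ψ (b * v.toAdd j) * ψ (-(b * v.toAdd j)) = 1 := by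
        rw [← AddChar.map_add_eq_mul, add_neg_cancel, AddChar.map_zero_eq_one]
      rw [h0, zero_mul] at h1
      exact zero_ne_one h1
    · exact one_ne_zero)
  refine ⟨σ, hσ1, fun i => ?_⟩
  obtain ⟨z, rfl⟩ := β.surjective i
  rcases z with ⟨j, c⟩ | l
  · rw [rot_inl]
    apply mul_left_cancel₀ hpΩ
    rw [hinv]
    have h1 : (p : Ω) * σ (x (β (Sum.inl (j, c)))) = σ ((p : Ω) * x (β (Sum.inl (j, c)))) := by
      rw [map_mul, map_natCast]
    rw [h1, hinv, map_sum]
    refine Finset.sum_congr rfl fun b _ => ?_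
    have h2 : σ (A (ψ (b * c))) = A (ψ (b * c)) := σ.commutes _
    rw [map_mul, h2, hσ2]
    show A (ψ (b * c)) * (A (ψ (b * v.toAdd j)) * u (Sum.inl (j, b))) = _
    rw [← mul_assoc, ← map_mul, ← AddChar.map_add_eq_mul, mul_add]
  · rw [rot_inr, hinr, hσ2]
    show A 1 * u (Sum.inr l) = _
    rw [map_one, one_mul]

end Pool.Agent.Helper15.RS
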