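import Pool.Agent.Helper15.RS.Ff
import Pool.Agent.Helper15.RS.Cm

/-!
# Project RS: existence of an absolute value with many isometries
-/

set_option autoImplicit false

namespace Pool.Agent.Helper15.RS

open MvPolynomial

universe u v

/-- The residue field is `k`. -/
def Res (k : Type*) {E : Type*} [Field k] [Field E] [Algebra k E] (w : E → ℝ) : Prop :=
  ∀ z, w z = 1 → ∃ c : k, w (z - algebraMap k E c) < 1

theorem exists_abs {k : Type v} {Ω : Type u} [Field k] [IsAlgClosed k] [Field Ω] [IsAlgClosed Ω]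
    [Algebra k Ω] {ι : Type*} [Finite ι] [Nonempty ι] (u : ι → Ω) (hu : AlgebraicIndependent k u)
    (hΩ : Algebra.IsAlgebraic (IntermediateField.adjoin k (Set.range u)) Ω) :
    ∃ w : Ω → ℝ, NA k w ∧ Res k w ∧ ∀ ε : ι → k, (∀ i, ε i ≠ 0) → ∃ σ : Ω ≃ₐ[k] Ω,
      (∀ z, w (σ z) = w z) ∧ ∀ i, σ (u i) = algebraMap k Ω (ε i) * u i := by
  have hmem : ∀ i, u i ∈ IntermediateField.adjoin k (Set.range u) :=
    fun i => IntermediateField.subset_adjoin _ _ ⟨i, rfl⟩
  obtain ⟨L, hL⟩ : ∃ L, L = IntermediateField.adjoin k (Set.range u) := ⟨_, rfl⟩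
  rw [← hL] at hΩ hmem
  let uL : ι → L := fun i => ⟨u i, hmem i⟩
  have hval : ∀ P : MvPolynomial ι k, ((aeval uL P : L) : Ω) = aeval u P := by
    intro P
    have h1 : L.val.comp (aeval uL) = aeval u := by
      apply MvPolynomial.algHom_ext
      intro i
      show L.val (aeval uL (X i)) = aeval u (X i)
      rw [aeval_X, aeval_X]
      rfl
    exact DFunLike.congr_fun h1 P
  have huL : AlgebraicIndependent k uL := AlgebraicIndependent.of_comp L.val hu
  have hgen : ∀ z : L, ∃ P Q : MvPolynomial ι k, z = aeval uL P / aeval uL Q := by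
    intro z
    have hz : (z : Ω) ∈ IntermediateField.adjoin k (Set.range u) := hL ▸ z.2
    obtain ⟨P, Q, h⟩ := (IntermediateField.mem_adjoin_range_iff k u (z : Ω)).1 hz
    refine ⟨P, Q, Subtype.ext ?_⟩
    rw [h, IntermediateField.coe_div, hval, hval]
  obtain ⟨v, hv, hvu, hvres, hvτ⟩ := ff_abs uL huL hgen
  have hnt : ∃ z : L, z ≠ 0 ∧ v z ≠ 1 := by
    obtain ⟨i⟩ := ‹Nonempty ι›
    refine ⟨uL i, ?_, (hvu i).2.ne⟩
    intro h0
    have := (hvu i).1
    rw [h0, hv.zero] at this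
    exact lt_irrefl _ this
  obtain ⟨w, hw, hwres, hwv, hwσ⟩ := closure_abs' (Ω := Ω) v hv hnt hvres
  refine ⟨w, hw, hwres, fun ε hε => ?_⟩
  obtain ⟨τ, hτ1, hτ2⟩ := hvτ ε hε
  obtain ⟨σ, hσ1, hσ2⟩ := hwσ τ.toRingEquiv hτ1
  have hσk : ∀ c : k, σ (algebraMap k Ω c) = algebraMap k Ω c := by
    intro c
    rw [IsScalarTower.algebraMap_apply k L Ω, hσ2]
    show algebraMap L Ω (τ (algebraMap k L c)) = _
    rw [AlgEquiv.commutes]
  refine ⟨AlgEquiv.ofRingEquiv (f := σ) hσk, hσ1, fun i => ?_⟩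
  show σ (u i) = _
  have h1 : u i = algebraMap L Ω (uL i) := rfl
  rw [h1, hσ2]
  show algebraMap L Ω (τ (uL i)) = _
  rw [hτ2, map_mul, ← IsScalarTower.algebraMap_apply]

end Pool.Agent.Helper15.RS
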