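import Pool.Agent.Helper15.RD.Df

/-!
# Project RS (MP_eecf71_ag): steps in general form
-/

set_option autoImplicit false

namespace Pool.Agent.Helper15.RS

open IntermediateField

/-- `B` is contained in the field generated over `A` by an algebraic function of at most `d`
parameters: `A ≤ B ≤ A E`, where `E` is a finite extension of a subfield `F` of `A` of
transcendence degree at most `d` over `k`. -/
def PStep {k Ω : Type*} [Field k] [Field Ω] [Algebra k Ω] (d : ℕ)
    (A B : IntermediateField k Ω) : Prop :=
  A ≤ B ∧ ∃ F E : IntermediateField k Ω, F ≤ A ∧ F ≤ E ∧ relfinrank F E ≠ 0 ∧ B ≤ A ⊔ E ∧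
    Algebra.trdeg k F ≤ d

end Pool.Agent.Helper15.RS
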