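import Pool.Agent.Helper15.RS.Dc
import Pool.Agent.Helper15.RS.Pd
import Pool.Agent.Helper15.RD.Ga

/-!
# Project RS: steps and their normal closures
-/

set_option autoImplicit false

namespace Pool.Agent.Helper15.RS

open IntermediateField Pool.Agent.Helper15.RD

universe u v

variable {k : Type v} {Ω : Type u} [Field k] [Field Ω] [Algebra k Ω]

/-- `exists_normal` with the finiteness of the set of restrictions -/
theorem exists_normal_fin [IsAlgClosed Ω] [CharZero k] (F E : IntermediateField k Ω) (hFE : F ≤ E)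
    (hfin : relfinrank F E ≠ 0) :
    ∃ N : IntermediateField k Ω, E ≤ N ∧ (∀ z ∈ N, IsAlgebraic F z) ∧
      (∀ σ ∈ F.fixingSubgroup, ∀ z ∈ N, σ z ∈ N) ∧
      (Set.range fun (σ : F.fixingSubgroup) (z : N) => (σ : Ω ≃ₐ[k] Ω) (z : Ω)).Finite ∧
      ∀ D : Subgroup (Ω ≃ₐ[k] Ω), D ≤ F.fixingSubgroup → ∀ σ ∈ F.fixingSubgroup,
        (∀ z ∈ N, (∀ δ ∈ D, δ z = z) → σ z = z) → ∃ δ ∈ D, ∀ z ∈ N, σ z = δ z := by
  have hfd : FiniteDimensional F (extendScalars hFE) := by
    apply FiniteDimensional.of_finrank_pos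
    rw [← relfinrank_eq_finrank_of_le hFE]
    exact Nat.pos_of_ne_zero hfin
  have halg : Algebra.IsAlgebraic F (extendScalars hFE) := inferInstance
  let N' : IntermediateField F Ω := normalClosure F (extendScalars hFE) Ω
  have hN1 : FiniteDimensional F N' := normalClosure.is_finiteDimensional F (extendScalars hFE) Ω
  have hN2 : Normal F N' := by
    have h1 := halg.isNormalClosure_normalClosure (F := F) (K := extendScalars hFE) (L := Ω)
      (fun x => IsAlgClosed.splits _)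
    exact h1.normal
  have hle : extendScalars hFE ≤ N' := IntermediateField.le_normalClosure _
  let ρ : F.fixingSubgroup →* (N' ≃ₐ[F] N') :=
    (AlgEquiv.restrictNormalHom N').comp (fixingSubgroupEquiv F).toMonoidHom
  have hρ : ∀ (σ : F.fixingSubgroup) (z : N'), ((ρ σ z : N') : Ω) = (σ : Ω ≃ₐ[k] Ω) (z : Ω) := by
    intro σ z
    exact AlgEquiv.restrictNormalHom_apply N' (fixingSubgroupEquiv F σ) z
  refine ⟨N'.restrictScalars k, ?_, ?_, ?_, ?_, ?_⟩
  · intro z hz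
    exact hle hz
  · intro z hz
    have h1 : IsAlgebraic F (⟨z, hz⟩ : N') := Algebra.IsAlgebraic.isAlgebraic _
    exact h1.algebraMap
  · intro σ hσ z hz
    have h1 := hρ ⟨σ, hσ⟩ ⟨z, hz⟩
    change σ z ∈ N'
    rw [← h1]
    exact Subtype.mem _
  · have hf : Finite (N' ≃ₐ[F] N') := inferInstance
    refine (Set.finite_range (fun (τ : N' ≃ₐ[F] N') (z : N') => ((τ z : N') : Ω))).subset ?_
    rintro _ ⟨σ, rfl⟩
    refine ⟨ρ σ, ?_⟩
    funext z
    exact hρ σ z
  · intro D hD σ hσ h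
    let D' : Subgroup (N' ≃ₐ[F] N') := (D.subgroupOf F.fixingSubgroup).map ρ
    have h1 : ρ ⟨σ, hσ⟩ ∈ fixingSubgroup (fixedField D') := by
      rw [IntermediateField.mem_fixingSubgroup_iff]
      intro z hz
      apply Subtype.ext
      change ((ρ ⟨σ, hσ⟩ z : N') : Ω) = z
      rw [hρ]
      apply h z z.2
      intro δ hδ
      have h2 : ρ ⟨δ, hD hδ⟩ ∈ D' :=
        Subgroup.mem_map_of_mem ρ (Subgroup.mem_subgroupOf.2 hδ)
      have h3 := hz ⟨_, h2⟩
      have h4 : ((ρ ⟨δ, hD hδ⟩ z : N') : Ω) = z := congrArg Subtype.val h3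
      rw [hρ] at h4
      exact h4
    rw [fixingSubgroup_fixedField] at h1
    obtain ⟨δ, hδ, h2⟩ := Subgroup.mem_map.1 h1
    refine ⟨δ, Subgroup.mem_subgroupOf.1 hδ, fun z hz => ?_⟩
    have h3 := congrArg (fun g : N' ≃ₐ[F] N' => ((g ⟨z, hz⟩ : N') : Ω)) h2
    change ((ρ δ ⟨z, hz⟩ : N') : Ω) = ((ρ ⟨σ, hσ⟩ ⟨z, hz⟩ : N') : Ω) at h3
    rw [hρ, hρ] at h3
    exact h3.symm

/-- `exists_field` for the more general steps -/
theorem exists_field_gen [IsAlgClosed Ω] [CharZero k] {n : ℕ} (hn : 5 ≤ n) (x : Fin n → Ω)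
    (hx : AlgebraicIndependent k x) (hΩ : Algebra.IsAlgebraic (adjoin k (Set.range x)) Ω)
    (d : ℕ) (A B : IntermediateField k Ω) (hA : coeffField k x ≤ A) (hst : PStep d A B)
    (h1 : alternatingGroup (Fin n) ≤ Im x A) (h2 : ¬ alternatingGroup (Fin n) ≤ Im x B) :
    ∃ E' : IntermediateField k Ω, E' ≤ A ⊔ adjoin k (Set.range x) ∧ TD k (E' : Set Ω) d ∧
      (∀ σ ∈ A.fixingSubgroup, ∀ z ∈ E', σ z ∈ E') ∧
      ∀ σ ∈ A.fixingSubgroup, (∀ z ∈ E', σ z = z) → ∀ i, σ (x i) = x i := by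
  have hinj : Function.Injective x := hx.injective
  obtain ⟨-, F, E, hFA, hFE, hrel, hAE, htr⟩ := hst
  obtain ⟨N, hEN, halg, hstab, hres⟩ := exists_normal F E hFE hrel
  have hFN : F ≤ N := hFE.trans hEN
  have hAF : A.fixingSubgroup ≤ F.fixingSubgroup := IntermediateField.fixingSubgroup_antitone hFA
  -- the group of the permutations induced over `A ⊔ N` is trivial
  have hbot : Im x (A ⊔ N) = ⊥ := by
    refine normal_trivial hn _ ?_ ?_
    · rintro a ha g ⟨σ, hσ, hσx⟩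
      obtain ⟨τ, hτ, hτx⟩ := h1 ha
      refine ⟨τ * σ * τ⁻¹, ?_, fun i => ?_⟩
      · rw [IntermediateField.fixingSubgroup_sup, Subgroup.mem_inf] at hσ ⊢
        obtain ⟨hσA, hσN⟩ := hσ
        refine ⟨mul_mem (mul_mem hτ hσA) (inv_mem hτ), ?_⟩
        rw [IntermediateField.mem_fixingSubgroup_iff]
        intro z hz
        have h3 : τ⁻¹ z ∈ N := hstab _ (hAF (inv_mem hτ)) z hz
        have h4 : σ (τ⁻¹ z) = τ⁻¹ z := (IntermediateField.mem_fixingSubgroup_iff _ _).1 hσN _ h3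
        rw [AlgEquiv.mul_apply, AlgEquiv.mul_apply, h4, ← AlgEquiv.mul_apply, mul_inv_cancel,
          AlgEquiv.one_apply]
      · have h3 : τ⁻¹ (x i) = x (a⁻¹ i) := by
          have h4 := hτx (a⁻¹ i)
          rw [show a (a⁻¹ i) = i from a.apply_symm_apply i] at h4
          rw [← h4, ← AlgEquiv.mul_apply, inv_mul_cancel, AlgEquiv.one_apply]
        rw [AlgEquiv.mul_apply, AlgEquiv.mul_apply, h3, hσx, hτx]
        rfl
    · intro h3
      exact h2 (h3.trans (Im_mono x (hAE.trans (sup_le_sup_left hEN A))))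
  have hfix : ∀ σ ∈ (A ⊔ N).fixingSubgroup, ∀ i, σ (x i) = x i := by
    intro σ hσ i
    obtain ⟨π, hπ⟩ := perm x hinj σ
      (IntermediateField.fixingSubgroup_antitone (hA.trans le_sup_left) hσ)
    have h3 : π ∈ Im x (A ⊔ N) := ⟨σ, hσ, hπ⟩
    rw [hbot, Subgroup.mem_bot] at h3
    rw [hπ, h3]
    rfl
  have hL : adjoin k (Set.range x) ≤ A ⊔ N := by
    rw [IntermediateField.adjoin_le_iff]
    rintro _ ⟨i, rfl⟩
    exact closed (A ⊔ N) (alg_of_le x hΩ (A ⊔ N) (hA.trans le_sup_left)) (x i)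
      fun σ hσ => hfix σ hσ i
  obtain ⟨M, hM⟩ : ∃ M : IntermediateField k Ω, M = A ⊔ adjoin k (Set.range x) := ⟨_, rfl⟩
  have hAM : A ≤ M := by
    rw [hM]
    exact le_sup_left
  have hLM : adjoin k (Set.range x) ≤ M := by
    rw [hM]
    exact le_sup_right
  have hMst : ∀ σ ∈ A.fixingSubgroup, ∀ z ∈ M, σ z ∈ M := by
    intro σ hσ z hz
    obtain ⟨π, hπ⟩ := perm x hinj σ (IntermediateField.fixingSubgroup_antitone hA hσ)
    have h3 : M ≤ M.comap (σ : Ω →ₐ[k] Ω) := by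
      have h4 : A ⊔ adjoin k (Set.range x) ≤ M.comap (σ : Ω →ₐ[k] Ω) := by
        refine sup_le ?_ ?_
        · intro a ha
          change σ a ∈ M
          rw [(IntermediateField.mem_fixingSubgroup_iff _ _).1 hσ a ha]
          exact hAM ha
        · rw [IntermediateField.adjoin_le_iff]
          rintro _ ⟨i, rfl⟩
          change σ (x i) ∈ M
          rw [hπ]
          exact hLM (IntermediateField.subset_adjoin _ _ ⟨_, rfl⟩)
      rwa [← hM] at h4
    exact h3 hz
  rw [← hM]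
  refine ⟨N ⊓ M, inf_le_right, ?_, ?_, ?_⟩
  · exact TD.mono (S' := (N : Set Ω)) (fun z hz => hz.1)
      (TD.of_algebraic F N hFN halg (TD.of_trdeg F htr))
  · intro σ hσ z hz
    exact ⟨hstab σ (hAF hσ) z hz.1, hMst σ hσ z hz.2⟩
  · intro σ hσ hz i
    obtain ⟨δ, hδ, hσδ⟩ := hres M.fixingSubgroup
      (IntermediateField.fixingSubgroup_antitone (hFA.trans hAM)) σ (hAF hσ) (by
        intro z hzN hzD
        refine hz z ⟨hzN, ?_⟩
        exact closed M (alg_of_le x hΩ M (hA.trans hAM)) z hzD)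
    have hδA : δ ∈ A.fixingSubgroup := IntermediateField.fixingSubgroup_antitone hAM hδ
    have h3 : δ⁻¹ * σ ∈ (A ⊔ N).fixingSubgroup := by
      rw [IntermediateField.fixingSubgroup_sup, Subgroup.mem_inf]
      refine ⟨mul_mem (inv_mem hδA) hσ, ?_⟩
      rw [IntermediateField.mem_fixingSubgroup_iff]
      intro z hzN
      rw [AlgEquiv.mul_apply, hσδ z hzN, ← AlgEquiv.mul_apply, inv_mul_cancel, AlgEquiv.one_apply]
    have h4 := hfix _ h3 i
    have h5 : δ (x i) = x i := (IntermediateField.mem_fixingSubgroup_iff _ _).1 hδ _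
      (hLM (IntermediateField.subset_adjoin _ _ ⟨i, rfl⟩))
    have h6 : σ (x i) = δ ((δ⁻¹ * σ) (x i)) := by
      rw [← AlgEquiv.mul_apply, mul_inv_cancel_left]
    rw [h6, h4, h5]

end Pool.Agent.Helper15.RS
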