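import Mathlib

/-!
# Project RS: an orbit of small size
-/

set_option autoImplicit false

namespace Pool.Agent.Helper15.RS

/-- a group acting on a set of `D` elements: the image in a `p`-group of one of the stabilizers has
index dividing the `p`-part of `D` -/
theorem exists_small_index {G V X : Type*} [Group G] [Group V] [Finite V] [MulAction G X]
    [Finite X] [Nonempty X] (p : ℕ) [hp : Fact p.Prime] (hV : IsPGroup p V) (f : G →* V) :
    ∃ e : X, Nat.card f.range ≤ p ^ padicValNat p (Nat.card X) *
      Nat.card ((MulAction.stabilizer G e).map f) := by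
  classical
  have hR : IsPGroup p f.range := hV.to_subgroup _
  obtain ⟨a, ha⟩ := IsPGroup.iff_card.1 hR
  have hdvd : ∀ e : X, ((MulAction.stabilizer G e).map f.rangeRestrict).index ∣
      Nat.card (MulAction.orbit G e) := by
    intro e
    have h1 := Subgroup.index_map_dvd (MulAction.stabilizer G e) f.rangeRestrict_surjective
    rw [MulAction.index_stabilizer] at h1
    exact h1
  have hex : ∃ e : X, ∃ b ≤ padicValNat p (Nat.card X),
      ((MulAction.stabilizer G e).map f.rangeRestrict).index = p ^ b := by
    by_contra hall
    push Not at hall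
    have h1 : ∀ e : X, p ^ (padicValNat p (Nat.card X) + 1) ∣ Nat.card (MulAction.orbit G e) := by
      intro e
      have h2 : ((MulAction.stabilizer G e).map f.rangeRestrict).index ∣ p ^ a := by
        rw [← ha]
        exact Subgroup.index_dvd_card _
      obtain ⟨b, -, hb⟩ := (Nat.dvd_prime_pow hp.out).1 h2
      have h3 : padicValNat p (Nat.card X) < b := by
        by_contra h
        exact hall e b (not_lt.1 h) hb
      refine (pow_dvd_pow p h3).trans ?_
      rw [← hb]
      exact hdvd e
    have h2 : p ^ (padicValNat p (Nat.card X) + 1) ∣ Nat.card X := by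
      have h3 : Nat.card X = ∑ᶠ ω : MulAction.orbitRel.Quotient G X, Nat.card ω.orbit := by
        have := Fintype.ofFinite (MulAction.orbitRel.Quotient G X)
        rw [finsum_eq_sum_of_fintype, Nat.card_congr (MulAction.selfEquivSigmaOrbits' G X),
          Nat.card_sigma]
      have := Fintype.ofFinite (MulAction.orbitRel.Quotient G X)
      rw [finsum_eq_sum_of_fintype] at h3
      refine Dvd.dvd.trans ?_ (dvd_of_eq h3.symm)
      refine Finset.dvd_sum fun ω _ => ?_
      induction ω using Quotient.inductionOn' with
      | h e =>
        rw [MulAction.orbitRel.Quotient.orbit_mk]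
        exact h1 e
    have h3 : Nat.card X ≠ 0 := Nat.card_pos.ne'
    exact absurd h2 (pow_succ_padicValNat_not_dvd h3)
  obtain ⟨e, b, hb, he⟩ := hex
  refine ⟨e, ?_⟩
  have h4 := Subgroup.card_mul_index ((MulAction.stabilizer G e).map f.rangeRestrict)
  rw [he, mul_comm] at h4
  have h5 : Nat.card ((MulAction.stabilizer G e).map f.rangeRestrict) =
      Nat.card ((MulAction.stabilizer G e).map f) := by
    have h6 : ((MulAction.stabilizer G e).map f.rangeRestrict).map f.range.subtype =
        (MulAction.stabilizer G e).map f := by
      rw [Subgroup.map_map]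
      rfl
    rw [← h6]
    exact (Subgroup.card_map_of_injective f.range.subtype_injective).symm
  rw [← h4, h5]
  exact Nat.mul_le_mul_right _ (Nat.pow_le_pow_right hp.out.pos hb)

end Pool.Agent.Helper15.RS
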