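import Pool.Agent.Helper15.RS.Fd
import Pool.Agent.Helper15.RS.Ob

/-!
# Project RS: the loss of rank in one step
-/

set_option autoImplicit false

namespace Pool.Agent.Helper15.RS

open IntermediateField Pool.Agent.Helper15.RD

universe u v

variable {k : Type v} {Ω : Type u} [Field k] [Field Ω] [Algebra k Ω]

/-- a step is finite -/
theorem PStep.finite {d : ℕ} {A B : IntermediateField k Ω} (h : PStep d A B) :
    relfinrank A B ≠ 0 := by
  obtain ⟨hAB, F, E, hFA, hFE, h0, hB, -⟩ := h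
  have hfd : FiniteDimensional F (extendScalars hFE) := by
    apply FiniteDimensional.of_finrank_pos
    rw [← relfinrank_eq_finrank_of_le hFE]
    exact Nat.pos_of_ne_zero h0
  let b := Module.finBasis F (extendScalars hFE)
  let S : Set Ω := Set.range fun i => ((b i : extendScalars hFE) : Ω)
  have hSint : ∀ y ∈ S, IsIntegral A y := by
    rintro _ ⟨i, rfl⟩
    have h1 : IsIntegral F (b i) := Algebra.IsIntegral.isIntegral _
    have h2 : IsIntegral F ((b i : extendScalars hFE) : Ω) := h1.map (extendScalars hFE).val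
    obtain ⟨P, hP, hP0⟩ := h2
    refine ⟨P.map (inclusion hFA).toRingHom, hP.map _, ?_⟩
    rw [Polynomial.eval₂_map]
    exact hP0
  have hfin : FiniteDimensional A (adjoin A S) := by
    have : Finite S := Set.finite_range _
    exact finiteDimensional_adjoin hSint
  have hle : A ⊔ E ≤ (adjoin A S).restrictScalars k := by
    refine sup_le (fun y hy => ?_) (fun z hz => ?_)
    · exact (adjoin A S).algebraMap_mem ⟨y, hy⟩
    · have h1 := b.sum_repr ⟨z, hz⟩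
      have h2 : z = ∑ i, ((b.repr ⟨z, hz⟩ i : F) : Ω) * ((b i : extendScalars hFE) : Ω) := by
        have h3 := congrArg (fun y : extendScalars hFE => (y : Ω)) h1
        simp only at h3
        refine h3.symm.trans ?_
        show (extendScalars hFE).val _ = _
        rw [map_sum]
        rfl
      rw [h2]
      refine sum_mem fun i _ => mul_mem ?_ ?_
      · exact (adjoin A S).algebraMap_mem ⟨_, hFA (b.repr ⟨z, hz⟩ i).2⟩
      · exact subset_adjoin A S ⟨i, rfl⟩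
  have hle' : extendScalars hAB ≤ adjoin A S := fun z hz => hle (hB hz)
  have hfd2 : FiniteDimensional A (extendScalars hAB) :=
    FiniteDimensional.of_injective (inclusion hle').toLinearMap (inclusion hle').injective
  rw [relfinrank_eq_finrank_of_le hAB]
  exact Module.finrank_pos.ne'

section

variable {V : Type*} [CommGroup V]

/-- the pairs of an isometry over `A` and an element of `V` which act on the roots in the same
way -/
def Gp (w : Ω → ℝ) {n : ℕ} (x : Fin n → Ω) (l : V →* Equiv.Perm (Fin n))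
    (A : IntermediateField k Ω) : Subgroup ((Ω ≃ₐ[k] Ω) × V) where
  carrier := {g | g.1 ∈ Iso k w ∧ g.1 ∈ A.fixingSubgroup ∧ ∀ i, g.1 (x i) = x (l g.2 i)}
  mul_mem' := by
    rintro ⟨σ, v⟩ ⟨σ', v'⟩ ⟨h1, h2, h3⟩ ⟨h1', h2', h3'⟩
    refine ⟨mul_mem h1 h1', mul_mem h2 h2', fun i => ?_⟩
    show (σ * σ') (x i) = x (l (v * v') i)
    rw [AlgEquiv.mul_apply, map_mul]
    have h4 : σ' (x i) = x (l v' i) := h3' i
    have h5 : σ (x (l v' i)) = x (l v (l v' i)) := h3 _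
    rw [h4, h5]
    rfl
  one_mem' := by
    refine ⟨one_mem _, one_mem _, fun i => ?_⟩
    show x i = x (l 1 i)
    rw [map_one]
    rfl
  inv_mem' := by
    rintro ⟨σ, v⟩ ⟨h1, h2, h3⟩
    refine ⟨inv_mem h1, inv_mem h2, fun i => ?_⟩
    show σ⁻¹ (x i) = x (l v⁻¹ i)
    have h4 : σ (x (l v⁻¹ i)) = x i := by
      have h5 : σ (x (l v⁻¹ i)) = x (l v (l v⁻¹ i)) := h3 _
      rw [h5, ← Equiv.Perm.mul_apply, ← map_mul, mul_inv_cancel, map_one]
      rfl
    rw [← h4, ← AlgEquiv.mul_apply, inv_mul_cancel, AlgEquiv.one_apply]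

/-- the elements of `V` realized by isometries over `A` -/
def Pp (w : Ω → ℝ) {n : ℕ} (x : Fin n → Ω) (l : V →* Equiv.Perm (Fin n))
    (A : IntermediateField k Ω) : Subgroup V :=
  (Gp w x l A).map (MonoidHom.snd _ _)

theorem mem_Pp {w : Ω → ℝ} {n : ℕ} {x : Fin n → Ω} {l : V →* Equiv.Perm (Fin n)}
    {A : IntermediateField k Ω} {v : V} :
    v ∈ Pp w x l A ↔ ∃ σ ∈ Iso k w, σ ∈ A.fixingSubgroup ∧ ∀ i, σ (x i) = x (l v i) := by
  constructor
  · rintro ⟨⟨σ, v⟩, ⟨h1, h2, h3⟩, rfl⟩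
    exact ⟨σ, h1, h2, h3⟩
  · rintro ⟨σ, h1, h2, h3⟩
    exact ⟨(σ, v), ⟨h1, h2, h3⟩, rfl⟩

/-- a step with `d` parameters lowers the rank by at most `d` -/
theorem step_rank [IsAlgClosed Ω] [CharZero k] {w : Ω → ℝ} (h : NA k w) (hr : Res k w) (p : ℕ)
    [hp : Fact p.Prime] (hV : ∀ v : V, v ^ p = 1) [Finite V] {n : ℕ} (x : Fin n → Ω)
    (l : V →* Equiv.Perm (Fin n)) {d : ℕ} {A B : IntermediateField k Ω} (hst : PStep d A B) :
    Nat.card (Pp w x l A) ≤ p ^ d * Nat.card (Pp w x l B) := by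
  obtain ⟨-, F, E, hFA, hFE, h0, hB, htr⟩ := hst
  obtain ⟨N, hEN, halg, hstab, hfin, -⟩ := exists_normal_fin F E hFE h0
  have hAF : A.fixingSubgroup ≤ F.fixingSubgroup := IntermediateField.fixingSubgroup_antitone hFA
  let a : Gp w x l A →* (Ω ≃ₐ[k] Ω) := (MonoidHom.fst _ _).comp (Gp w x l A).subtype
  have ha : ∀ g : Gp w x l A, a g = (g : (Ω ≃ₐ[k] Ω) × V).1 := fun g => rfl
  let π : Gp w x l A →* V ⧸ Pp w x l B :=
    (QuotientGroup.mk' _).comp ((MonoidHom.snd _ _).comp (Gp w x l A).subtype)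
  have key : Nat.card π.range ≤ p ^ d := by
    refine rank_bound h hr p N d (TD.of_algebraic F N (hFE.trans hEN) halg (TD.of_trdeg F htr)) a
      (fun g => g.2.1) (fun g => hstab _ (hAF g.2.2.1)) ?_ π (fun g => ?_) (fun g hg => ?_)
    · refine hfin.subset ?_
      rintro _ ⟨g, rfl⟩
      exact ⟨⟨a g, hAF g.2.2.1⟩, rfl⟩
    · rw [← map_pow]
      show (QuotientGroup.mk' (Pp w x l B)) ((g ^ p : Gp w x l A) : (Ω ≃ₐ[k] Ω) × V).2 = 1
      have h1 : ((g ^ p : Gp w x l A) : (Ω ≃ₐ[k] Ω) × V).2 = 1 := by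
        rw [Subgroup.coe_pow, Prod.pow_snd]
        exact hV _
      rw [h1, map_one]
    · show (QuotientGroup.mk' (Pp w x l B)) (g : (Ω ≃ₐ[k] Ω) × V).2 = 1
      rw [QuotientGroup.mk'_apply, QuotientGroup.eq_one_iff, mem_Pp]
      refine ⟨(g : (Ω ≃ₐ[k] Ω) × V).1, g.2.1, ?_, g.2.2.2⟩
      have h1 : (g : (Ω ≃ₐ[k] Ω) × V).1 ∈ (A ⊔ N).fixingSubgroup := by
        rw [IntermediateField.fixingSubgroup_sup, Subgroup.mem_inf]
        refine ⟨g.2.2.1, ?_⟩
        rw [IntermediateField.mem_fixingSubgroup_iff]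
        exact hg
      exact IntermediateField.fixingSubgroup_antitone (hB.trans (sup_le_sup_left hEN A)) h1
  let q : Pp w x l A →* V ⧸ Pp w x l B := (QuotientGroup.mk' _).comp (Pp w x l A).subtype
  have h1 := Subgroup.card_mul_index q.ker
  rw [Subgroup.index_ker] at h1
  have h2 : Nat.card q.range ≤ Nat.card π.range := by
    have h3 : q.range ≤ π.range := by
      rintro _ ⟨⟨v, g, hg, rfl⟩, rfl⟩
      exact ⟨⟨g, hg⟩, rfl⟩
    exact Nat.card_le_card_of_injective _ (Subgroup.inclusion_injective h3)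
  have h3 : Nat.card q.ker ≤ Nat.card (Pp w x l B) := by
    refine Nat.card_le_card_of_injective (fun v : q.ker => (⟨((v : Pp w x l A) : V), ?_⟩ :
      Pp w x l B)) ?_
    · have h4 : (QuotientGroup.mk' (Pp w x l B)) ((v : Pp w x l A) : V) = 1 := v.2
      rwa [QuotientGroup.mk'_apply, QuotientGroup.eq_one_iff] at h4
    · intro v v' hv
      have h5 : ((v : Pp w x l A) : V) = ((v' : Pp w x l A) : V) := by
        simpa using hv
      exact Subtype.ext (Subtype.ext h5)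
  rw [← h1, mul_comm]
  exact Nat.mul_le_mul (h2.trans key) h3

/-- conjugation by `τ`, which acts on the roots by `ρ` -/
def cj {n : ℕ} (ρ : Equiv.Perm (Fin n)) (l : V →* Equiv.Perm (Fin n)) :
    V →* Equiv.Perm (Fin n) := (MulAut.conj ρ⁻¹).toMonoidHom.comp l

theorem cj_apply {n : ℕ} (ρ : Equiv.Perm (Fin n)) (l : V →* Equiv.Perm (Fin n)) (v : V)
    (i : Fin n) : cj ρ l v i = ρ⁻¹ (l v (ρ i)) := by
  show (ρ⁻¹ * l v * ρ⁻¹⁻¹) i = _
  rw [inv_inv]
  rfl

theorem cj_injective {n : ℕ} (ρ : Equiv.Perm (Fin n)) {l : V →* Equiv.Perm (Fin n)}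
    (hl : Function.Injective l) : Function.Injective (cj ρ l) := by
  intro v v' h
  exact hl ((MulAut.conj ρ⁻¹).injective h)

theorem NA_comp {w : Ω → ℝ} (h : NA k w) (τ : Ω ≃ₐ[k] Ω) : NA k (fun z => w (τ z)) where
  zero := by rw [map_zero, h.zero]
  pos z hz := h.pos _ ((map_ne_zero τ).2 hz)
  mul a b := by rw [map_mul, h.mul]
  add a b := by
    rw [map_add]
    exact h.add _ _
  alg c hc := by rw [τ.commutes, h.alg c hc]

theorem Res_comp {w : Ω → ℝ} (h : Res k w) (τ : Ω ≃ₐ[k] Ω) : Res k (fun z => w (τ z)) := by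
  intro z hz
  obtain ⟨c, hc⟩ := h (τ z) hz
  refine ⟨c, ?_⟩
  show w (τ (z - algebraMap k Ω c)) < 1
  rw [map_sub, τ.commutes]
  exact hc

/-- transport by an automorphism -/
theorem Pp_comp {w : Ω → ℝ} {n : ℕ} {x : Fin n → Ω} {l : V →* Equiv.Perm (Fin n)}
    (τ : Ω ≃ₐ[k] Ω) (ρ : Equiv.Perm (Fin n)) (hρ : ∀ i, τ (x i) = x (ρ i))
    {σ : Ω ≃ₐ[k] Ω} {v : V} (h1 : σ ∈ Iso k w) (h2 : ∀ i, σ (x i) = x (l v i)) :
    τ⁻¹ * σ * τ ∈ Iso k (fun z => w (τ z)) ∧ ∀ i, (τ⁻¹ * σ * τ) (x i) = x (cj ρ l v i) := by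
  have hinv : ∀ z, τ (τ⁻¹ z) = z := fun z => by
    rw [← AlgEquiv.mul_apply, mul_inv_cancel, AlgEquiv.one_apply]
  constructor
  · intro z
    show w (τ ((τ⁻¹ * σ * τ) z)) = w (τ z)
    rw [AlgEquiv.mul_apply, AlgEquiv.mul_apply, hinv]
    exact h1 _
  · intro i
    rw [AlgEquiv.mul_apply, AlgEquiv.mul_apply, hρ, h2, cj_apply]
    apply τ.injective
    rw [hinv, hρ]
    congr 1
    exact (ρ.apply_symm_apply _).symm

theorem Pp_comp_eq {w : Ω → ℝ} {n : ℕ} {x : Fin n → Ω} {l : V →* Equiv.Perm (Fin n)}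
    (τ : Ω ≃ₐ[k] Ω) (ρ : Equiv.Perm (Fin n)) (hρ : ∀ i, τ (x i) = x (ρ i))
    {A : IntermediateField k Ω} (hτ : τ ∈ A.fixingSubgroup) :
    Pp w x l A ≤ Pp (fun z => w (τ z)) x (cj ρ l) A := by
  intro v hv
  rw [mem_Pp] at hv ⊢
  obtain ⟨σ, h1, h2, h3⟩ := hv
  obtain ⟨h4, h5⟩ := Pp_comp τ ρ hρ h1 h3
  exact ⟨_, h4, mul_mem (mul_mem (inv_mem hτ) h2) hτ, h5⟩

/-- for a suitable conjugate, a finite extension of degree `D` lowers the rank by at most the
exponent of `p` in `D` -/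
theorem step_val [IsAlgClosed Ω] [CharZero k] {w : Ω → ℝ} (p : ℕ)
    [hp : Fact p.Prime] (hV : IsPGroup p V) [Finite V] {n : ℕ} (x : Fin n → Ω)
    (hx : Function.Injective x) (hΩ : Algebra.IsAlgebraic (adjoin k (Set.range x)) Ω)
    (l : V →* Equiv.Perm (Fin n)) {A B : IntermediateField k Ω} (hA : coeffField k x ≤ A)
    (hAB : A ≤ B) (h0 : relfinrank A B ≠ 0) :
    ∃ τ ∈ A.fixingSubgroup, ∃ ρ : Equiv.Perm (Fin n), (∀ i, τ (x i) = x (ρ i)) ∧
      Nat.card (Pp w x l A) ≤ p ^ padicValNat p (relfinrank A B) *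
        Nat.card (Pp (fun z => w (τ z)) x (cj ρ l) B) := by
  have halg := alg_of_le x hΩ A hA
  have hcz : CharZero A := charZero_of_injective_algebraMap (algebraMap k A).injective
  have hcl : IsAlgClosure A Ω := ⟨inferInstance, halg⟩
  have hnor : Normal A Ω := IsAlgClosure.normal A Ω
  have hsep : Algebra.IsSeparable A Ω := inferInstance
  have hgal : IsGalois A Ω := ⟨⟩
  let H : Subgroup (Ω ≃ₐ[A] Ω) := (extendScalars hAB).fixingSubgroup
  have hcard : Nat.card ((Ω ≃ₐ[A] Ω) ⧸ H) = relfinrank A B := by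
    rw [relfinrank_eq_finrank_of_le hAB, finrank_eq_fixingSubgroup_index]
    rfl
  let b : Gp w x l A →* A.fixingSubgroup :=
    ((MonoidHom.fst _ _).comp (Gp w x l A).subtype).codRestrict _ fun g => g.2.2.1
  let φ : Gp w x l A →* (Ω ≃ₐ[A] Ω) := (fixingSubgroupEquiv A).toMonoidHom.comp b
  let : MulAction (Gp w x l A) ((Ω ≃ₐ[A] Ω) ⧸ H) := MulAction.compHom _ φ
  have hfX : Finite ((Ω ≃ₐ[A] Ω) ⧸ H) := Nat.finite_of_card_ne_zero (hcard ▸ h0)
  let f : Gp w x l A →* V := (MonoidHom.snd _ _).comp (Gp w x l A).subtype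
  obtain ⟨e, he⟩ := exists_small_index (X := (Ω ≃ₐ[A] Ω) ⧸ H) p hV f
  obtain ⟨τ', rfl⟩ := QuotientGroup.mk_surjective e
  obtain ⟨τ, hτ⟩ : ∃ τ : A.fixingSubgroup, τ = (fixingSubgroupEquiv A).symm τ' := ⟨_, rfl⟩
  have hττ' : ∀ z, τ' z = (τ : Ω ≃ₐ[k] Ω) z := by
    intro z
    rw [hτ]
    rfl
  have hφ : ∀ (g : Gp w x l A) (z : Ω), φ g z = (g : (Ω ≃ₐ[k] Ω) × V).1 z := fun g z => rfl
  obtain ⟨ρ, hρ⟩ := perm x hx (τ : Ω ≃ₐ[k] Ω)
    (IntermediateField.fixingSubgroup_antitone hA τ.2)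
  refine ⟨τ, τ.2, ρ, hρ, ?_⟩
  have h1 : f.range = Pp w x l A := by
    ext v
    constructor
    · rintro ⟨g, rfl⟩
      exact ⟨g, g.2, rfl⟩
    · rintro ⟨g, hg, rfl⟩
      exact ⟨⟨g, hg⟩, rfl⟩
  have h2 : (MulAction.stabilizer (Gp w x l A) (QuotientGroup.mk τ' : (Ω ≃ₐ[A] Ω) ⧸ H)).map f ≤
      Pp (fun z => w ((τ : Ω ≃ₐ[k] Ω) z)) x (cj ρ l) B := by
    rintro _ ⟨g, hg, rfl⟩
    have hg1 : g • (QuotientGroup.mk τ' : (Ω ≃ₐ[A] Ω) ⧸ H) = QuotientGroup.mk τ' := hg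
    have hg2 : (QuotientGroup.mk (φ g * τ') : (Ω ≃ₐ[A] Ω) ⧸ H) = QuotientGroup.mk τ' := hg1
    rw [QuotientGroup.eq] at hg2
    obtain ⟨h4, h5⟩ := Pp_comp (τ : Ω ≃ₐ[k] Ω) ρ hρ g.2.1 g.2.2.2
    rw [mem_Pp]
    refine ⟨_, h4, ?_, h5⟩
    rw [IntermediateField.mem_fixingSubgroup_iff]
    intro z hz
    have h6 : ((φ g * τ')⁻¹ * τ') z = z :=
      (IntermediateField.mem_fixingSubgroup_iff _ _).1 hg2 z hz
    have h7 : τ' z = φ g (τ' z) := by
      have h8 := congrArg (φ g * τ') h6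
      rw [← AlgEquiv.mul_apply, mul_inv_cancel_left] at h8
      exact h8
    rw [hφ, hττ'] at h7
    rw [AlgEquiv.mul_apply, AlgEquiv.mul_apply]
    apply (τ : Ω ≃ₐ[k] Ω).injective
    rw [← AlgEquiv.mul_apply, mul_inv_cancel, AlgEquiv.one_apply]
    exact h7.symm
  rw [h1, hcard] at he
  refine he.trans (Nat.mul_le_mul_left _ ?_)
  exact Nat.card_le_card_of_injective _ (Subgroup.inclusion_injective h2)

end

end Pool.Agent.Helper15.RS
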