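import Pool.Agent.Helper15.RS.Hn

/-!
# Project RS: monomial absolute values of a rational function field
-/

set_option autoImplicit false

namespace Pool.Agent.Helper15.RS

open MvPolynomial

theorem NA.indep {k E : Type*} [Field k] [Field E] [Algebra k E] {w : E → ℝ} (h : NA k w)
    {ι : Type*} (t : ι → E) (ht : ∀ i, t i ≠ 0)
    (hr : ∀ α β : ι →₀ ℕ, w (RS.mon t α) = w (RS.mon t β) → α = β) : AlgebraicIndependent k t := by
  rw [algebraicIndependent_iff]
  intro P hP
  by_contra h0
  obtain ⟨α, -, -, -, h1⟩ := h.poly t ht hr P h0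
  rw [hP, h.zero] at h1
  exact (h.pos _ (mon_ne_zero t ht α)).ne h1

theorem NA.mon_inj {k E : Type*} [Field k] [Field E] [Algebra k E] {w : E → ℝ} (h : NA k w)
    {ι : Type*} {r : ι → ℝ}
    (hr : ∀ α β : ι →₀ ℕ, (α.prod fun i e => r i ^ e) = (β.prod fun i e => r i ^ e) → α = β)
    (s : ι → E) (hs : ∀ i, w (s i) = r i) (α β : ι →₀ ℕ)
    (hαβ : w (RS.mon s α) = w (RS.mon s β)) : α = β := by
  rw [h.mon, h.mon] at hαβ
  simp only [hs] at hαβ
  exact hr α β hαβ

/-- homomorphisms of a rational function field -/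
theorem ff_hom {k L M : Type*} [Field k] [Field L] [Algebra k L] [Field M] [Algebra k M]
    {ι : Type*} (u : ι → L) (hu : AlgebraicIndependent k u)
    (hgen : ∀ z : L, ∃ P Q : MvPolynomial ι k, z = aeval u P / aeval u Q) (t : ι → M)
    (ht : AlgebraicIndependent k t) : ∃ φ : L →ₐ[k] M, ∀ i, φ (u i) = t i := by
  let eL : FractionRing (MvPolynomial ι k) →ₐ[k] L :=
    IsFractionRing.liftAlgHom (algebraicIndependent_iff_injective_aeval.1 hu)
  let eM : FractionRing (MvPolynomial ι k) →ₐ[k] M :=
    IsFractionRing.liftAlgHom (algebraicIndependent_iff_injective_aeval.1 ht)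
  have h1 : ∀ P, eL (algebraMap (MvPolynomial ι k) (FractionRing (MvPolynomial ι k)) P) = aeval u P := fun P =>
    IsFractionRing.lift_algebraMap (algebraicIndependent_iff_injective_aeval.1 hu) P
  have h2 : ∀ P, eM (algebraMap (MvPolynomial ι k) (FractionRing (MvPolynomial ι k)) P) = aeval t P := fun P =>
    IsFractionRing.lift_algebraMap (algebraicIndependent_iff_injective_aeval.1 ht) P
  have hsurj : Function.Surjective eL := by
    intro z
    obtain ⟨P, Q, hz⟩ := hgen z
    refine ⟨algebraMap (MvPolynomial ι k) (FractionRing (MvPolynomial ι k)) P /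
      algebraMap (MvPolynomial ι k) (FractionRing (MvPolynomial ι k)) Q, ?_⟩
    rw [map_div₀, h1, h1, hz]
  let e : FractionRing (MvPolynomial ι k) ≃ₐ[k] L := AlgEquiv.ofBijective eL ⟨eL.injective, hsurj⟩
  refine ⟨eM.comp (e.symm : L →ₐ[k] FractionRing (MvPolynomial ι k)), fun i => ?_⟩
  have h3 : e (algebraMap (MvPolynomial ι k) (FractionRing (MvPolynomial ι k)) (X i)) = u i := by
    show eL _ = _
    rw [h1, aeval_X]
  show eM (e.symm (u i)) = t i
  rw [← h3, AlgEquiv.symm_apply_apply, h2, aeval_X]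

/-- The monomial absolute value of a rational function field: residue field `k`, and every scaling of
the variables is an isometry. -/
theorem ff_abs {k L : Type*} [Field k] [Field L] [Algebra k L] {ι : Type*} [Finite ι]
    (u : ι → L) (hu : AlgebraicIndependent k u)
    (hgen : ∀ z : L, ∃ P Q : MvPolynomial ι k, z = aeval u P / aeval u Q) :
    ∃ v : L → ℝ, NA k v ∧ (∀ i, 0 < v (u i) ∧ v (u i) < 1) ∧
      (∀ z : L, v z = 1 → ∃ c : k, v (z - algebraMap k L c) < 1) ∧
      ∀ ε : ι → k, (∀ i, ε i ≠ 0) → ∃ τ : L ≃ₐ[k] L, (∀ z, v (τ z) = v z) ∧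
        ∀ i, τ (u i) = algebraMap k L (ε i) * u i := by
  obtain ⟨r, hr0, hr1, hr⟩ := exists_weights ι
  choose t ht using fun i => hw_single k (r i) (hr0 i)
  have ht0 : ∀ i, t i ≠ 0 := by
    intro i h0
    have := ht i
    rw [h0, (hw_NA k).zero] at this
    exact (hr0 i).ne this
  have htr := (hw_NA k).mon_inj hr t ht
  obtain ⟨φ, hφ⟩ := ff_hom u hu hgen t ((hw_NA k).indep t ht0 htr)
  let v : L → ℝ := fun z => hw k (φ z)
  have hv : NA k v :=
    { zero := by
        show hw k (φ 0) = 0
        rw [map_zero, (hw_NA k).zero]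
      pos := fun z hz => (hw_NA k).pos _ (by rwa [Ne, map_eq_zero_iff φ φ.injective])
      mul := fun a b => by
        show hw k (φ (a * b)) = _
        rw [map_mul, (hw_NA k).mul]
      add := fun a b => by
        show hw k (φ (a + b)) ≤ _
        rw [map_add]
        exact (hw_NA k).add _ _
      alg := fun c hc => by
        show hw k (φ (algebraMap k L c)) = 1
        rw [φ.commutes]
        exact (hw_NA k).alg c hc }
  have hvu : ∀ i, v (u i) = r i := fun i => by
    show hw k (φ (u i)) = r i
    rw [hφ, ht]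
  have hu0 : ∀ i, u i ≠ 0 := by
    intro i h0
    have := hvu i
    rw [h0, hv.zero] at this
    exact (hr0 i).ne this
  have hur := hv.mon_inj hr u hvu
  refine ⟨v, hv, fun i => by rw [hvu]; exact ⟨hr0 i, hr1 i⟩, ?_, ?_⟩
  · intro z hz
    obtain ⟨P, Q, rfl⟩ := hgen z
    have hP : P ≠ 0 := by
      rintro rfl
      rw [map_zero, zero_div, hv.zero] at hz
      exact zero_ne_one hz
    have hQ : Q ≠ 0 := by
      rintro rfl
      rw [map_zero, div_zero, hv.zero] at hz
      exact zero_ne_one hz
    obtain ⟨α, hα, -, h1, h2⟩ := hv.poly u hu0 hur P hP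
    obtain ⟨β, hβ, -, h3, h4⟩ := hv.poly u hu0 hur Q hQ
    have hQ0 : 0 < v (RS.mon u β) := hv.pos _ (mon_ne_zero u hu0 β)
    have hαβ : α = β := by
      apply hur
      rw [hv.div, h2, h4, div_eq_one_iff_eq hQ0.ne'] at hz
      exact hz
    subst hαβ
    have ha : coeff α P ≠ 0 := mem_support_iff.1 hα
    have hb : coeff α Q ≠ 0 := mem_support_iff.1 hβ
    have hQne : aeval u Q ≠ 0 := by
      intro h0
      rw [h0, hv.zero] at h4
      exact hQ0.ne h4
    refine ⟨coeff α P / coeff α Q, ?_⟩
    have h5 : aeval u P / aeval u Q - algebraMap k L (coeff α P / coeff α Q) =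
        ((aeval u P - algebraMap k L (coeff α P) * RS.mon u α) -
          algebraMap k L (coeff α P / coeff α Q) *
            (aeval u Q - algebraMap k L (coeff α Q) * RS.mon u α)) / aeval u Q := by
      have hb' : algebraMap k L (coeff α Q) ≠ 0 := by
        rwa [Ne, map_eq_zero_iff _ (algebraMap k L).injective]
      rw [map_div₀]
      field_simp
      ring
    rw [h5, hv.div, h4, div_lt_one hQ0]
    refine hv.sub_lt h1 ?_
    rw [hv.mul, hv.alg _ (div_ne_zero ha hb), one_mul]
    exact h3
  · intro ε hε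
    let u' : ι → L := fun i => algebraMap k L (ε i) * u i
    have hvu' : ∀ i, v (u' i) = r i := fun i => by
      show v (algebraMap k L (ε i) * u i) = r i
      rw [hv.mul, hv.alg _ (hε i), one_mul, hvu]
    have hu0' : ∀ i, u' i ≠ 0 := by
      intro i h0
      have := hvu' i
      rw [h0, hv.zero] at this
      exact (hr0 i).ne this
    obtain ⟨τ, hτ⟩ := ff_hom u hu hgen u' (hv.indep u' hu0' (hv.mon_inj hr u' hvu'))
    let u'' : ι → L := fun i => algebraMap k L (ε i)⁻¹ * u i
    have hvu'' : ∀ i, v (u'' i) = r i := fun i => by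
      show v (algebraMap k L (ε i)⁻¹ * u i) = r i
      rw [hv.mul, hv.alg _ (inv_ne_zero (hε i)), one_mul, hvu]
    have hu0'' : ∀ i, u'' i ≠ 0 := by
      intro i h0
      have := hvu'' i
      rw [h0, hv.zero] at this
      exact (hr0 i).ne this
    obtain ⟨τ', hτ'⟩ := ff_hom u hu hgen u'' (hv.indep u'' hu0'' (hv.mon_inj hr u'' hvu''))
    have hext : ∀ f g : L →ₐ[k] L, (∀ i, f (u i) = g (u i)) → f = g := by
      intro f g hfg
      have h1 : f.comp (aeval u) = g.comp (aeval u) := by
        apply MvPolynomial.algHom_ext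
        intro i
        show f (aeval u (X i)) = g (aeval u (X i))
        rw [aeval_X, hfg]
      ext z
      obtain ⟨P, Q, rfl⟩ := hgen z
      have h2 : ∀ R : MvPolynomial ι k, f (aeval u R) = g (aeval u R) := fun R => DFunLike.congr_fun h1 R
      rw [map_div₀, map_div₀, h2, h2]
    have h1 : τ'.comp τ = AlgHom.id k L := by
      apply hext
      intro i
      show τ' (τ (u i)) = u i
      rw [hτ, map_mul, AlgHom.commutes, hτ', ← mul_assoc, ← map_mul, mul_inv_cancel₀ (hε i),
        map_one, one_mul]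
    have h2 : τ.comp τ' = AlgHom.id k L := by
      apply hext
      intro i
      show τ (τ' (u i)) = u i
      rw [hτ', map_mul, AlgHom.commutes, hτ, ← mul_assoc, ← map_mul, inv_mul_cancel₀ (hε i),
        map_one, one_mul]
    refine ⟨AlgEquiv.ofAlgHom τ τ' h2 h1, fun z => ?_, hτ⟩
    obtain ⟨P, Q, rfl⟩ := hgen z
    have h3 : ∀ R : MvPolynomial ι k, v (τ (aeval u R)) = v (aeval u R) := by
      intro R
      have h4 : τ (aeval u R) = aeval u' R := by
        have h5 : τ.comp (aeval u) = aeval u' := by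
          apply MvPolynomial.algHom_ext
          intro i
          show τ (aeval u (X i)) = aeval u' (X i)
          rw [aeval_X, aeval_X, hτ]
        exact DFunLike.congr_fun h5 R
      rw [h4]
      exact (hv.poly_eq hv u hu0 hur u' (fun i => by rw [hvu, hvu']) R).symm
    show v (τ (aeval u P / aeval u Q)) = _
    rw [map_div₀, hv.div, hv.div, h3, h3]

end Pool.Agent.Helper15.RS
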