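import Pool.Agent.Helper15.RS.Na

/-!
# Project RS: the absolute value of the field of Hahn series with real exponents, and weights
-/

set_option autoImplicit false

namespace Pool.Agent.Helper15.RS

/-- the field of Hahn series with real exponents -/
def HS (k : Type*) [Field k] := HahnSeries ℝ k

noncomputable instance (k : Type*) [Field k] : Field (HS k) := inferInstanceAs (Field (HahnSeries ℝ k))

noncomputable instance (k : Type*) [Field k] : Algebra k (HS k) :=
  (HahnSeries.C : k →+* HahnSeries ℝ k).toAlgebra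

open Classical in
/-- `exp (- order)` -/
noncomputable def hw (k : Type*) [Field k] (f : HS k) : ℝ :=
  if f = 0 then 0 else Real.exp (-HahnSeries.order (f : HahnSeries ℝ k))

theorem hw_of_ne {k : Type*} [Field k] {f : HS k} (hf : f ≠ 0) :
    hw k f = Real.exp (-HahnSeries.order (f : HahnSeries ℝ k)) := if_neg hf

theorem hw_NA (k : Type*) [Field k] : NA k (hw k) where
  zero := if_pos rfl
  pos z hz := by
    rw [hw_of_ne hz]
    exact Real.exp_pos _
  mul a b := by
    rcases eq_or_ne a 0 with rfl | ha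
    · rw [zero_mul]
      unfold hw
      rw [if_pos rfl, zero_mul]
    rcases eq_or_ne b 0 with rfl | hb
    · rw [mul_zero]
      unfold hw
      rw [if_pos rfl, mul_zero]
    have h1 : HahnSeries.order (a * b : HahnSeries ℝ k) = HahnSeries.order (a : HahnSeries ℝ k) +
      HahnSeries.order (b : HahnSeries ℝ k) := HahnSeries.order_mul ha hb
    rw [hw_of_ne (mul_ne_zero ha hb), hw_of_ne ha, hw_of_ne hb, ← Real.exp_add, ← neg_add, ← h1]
  add a b := by
    rcases eq_or_ne a 0 with rfl | ha
    · rw [zero_add]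
      exact le_max_right _ _
    rcases eq_or_ne b 0 with rfl | hb
    · rw [add_zero]
      exact le_max_left _ _
    by_cases hab : a + b = 0
    · rw [hab]
      unfold hw
      rw [if_pos rfl, if_neg ha, if_neg hb]
      exact le_max_of_le_left (Real.exp_pos _).le
    rw [hw_of_ne hab, hw_of_ne ha, hw_of_ne hb]
    have h1 := HahnSeries.min_order_le_order_add hab
    rcases min_le_iff.1 h1 with h2 | h2
    · exact le_max_of_le_left (Real.exp_le_exp.2 (neg_le_neg h2))
    · exact le_max_of_le_right (Real.exp_le_exp.2 (neg_le_neg h2))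
  alg c hc := by
    have h1 : algebraMap k (HS k) c = (HahnSeries.C c : HahnSeries ℝ k) := rfl
    have h2 : (HahnSeries.C c : HahnSeries ℝ k) ≠ 0 := HahnSeries.C_ne_zero hc
    have h3 : HahnSeries.order (HahnSeries.C c : HahnSeries ℝ k) = 0 := HahnSeries.order_C
    rw [h1, hw_of_ne h2, h3, neg_zero, Real.exp_zero]

theorem hw_single (k : Type*) [Field k] (r : ℝ) (hr : 0 < r) : ∃ t : HS k, hw k t = r := by
  refine ⟨(HahnSeries.single (-Real.log r) 1 : HahnSeries ℝ k), ?_⟩
  have h1 : (HahnSeries.single (-Real.log r) 1 : HahnSeries ℝ k) ≠ 0 :=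
    HahnSeries.single_ne_zero one_ne_zero
  have h2 : HahnSeries.order (HahnSeries.single (-Real.log r) 1 : HahnSeries ℝ k) = -Real.log r :=
    HahnSeries.order_single one_ne_zero
  rw [hw_of_ne h1, h2, neg_neg, Real.exp_log hr]

theorem weights_inj {ι : Type*} (p : ι → ℕ) (hp : ∀ i, (p i).Prime) (hinj : Function.Injective p)
    (α β : ι →₀ ℕ) (h : (α.prod fun i e => ((p i : ℝ)⁻¹) ^ e) = β.prod fun i e => ((p i : ℝ)⁻¹) ^ e) :
    α = β := by
  have h1 : ∀ γ : ι →₀ ℕ, (γ.prod fun i e => ((p i : ℝ)⁻¹) ^ e) =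
      (((γ.prod fun i e => p i ^ e : ℕ) : ℝ))⁻¹ := by
    intro γ
    unfold Finsupp.prod
    rw [Nat.cast_prod, ← Finset.prod_inv_distrib]
    refine Finset.prod_congr rfl fun i _ => ?_
    show ((p i : ℝ)⁻¹) ^ γ i = _
    rw [Nat.cast_pow, inv_pow]
  rw [h1, h1] at h
  have h2 : (α.prod fun i e => p i ^ e : ℕ) = β.prod fun i e => p i ^ e := by
    exact_mod_cast inv_injective h
  have h3 : ∀ γ : ι →₀ ℕ, ((γ.prod fun i e => p i ^ e : ℕ)).factorization = γ.mapDomain p := by
    intro γ
    have h4 : (γ.mapDomain p).prod (fun a b => a ^ b) = γ.prod fun i e => p i ^ e :=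
      Finsupp.prod_mapDomain_index (fun _ => pow_zero _) (fun _ _ _ => pow_add _ _ _)
    rw [← h4]
    refine Nat.prod_pow_factorization_eq_self ?_
    intro q hq
    obtain ⟨i, -, rfl⟩ := Finset.mem_image.1 (Finsupp.mapDomain_support hq)
    exact hp i
  apply Finsupp.mapDomain_injective hinj
  rw [← h3, ← h3, h2]

theorem exists_weights (ι : Type*) [Finite ι] : ∃ r : ι → ℝ, (∀ i, 0 < r i) ∧ (∀ i, r i < 1) ∧
    ∀ α β : ι →₀ ℕ, (α.prod fun i e => r i ^ e) = (β.prod fun i e => r i ^ e) → α = β := by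
  obtain ⟨n, ⟨e⟩⟩ := Finite.exists_equiv_fin ι
  have hp : ∀ i, (Nat.nth Nat.Prime (e i)).Prime := fun i => Nat.prime_nth_prime _
  refine ⟨fun i => ((Nat.nth Nat.Prime (e i) : ℕ) : ℝ)⁻¹, fun i => ?_, fun i => ?_,
    fun α β h => ?_⟩
  · have := (hp i).pos
    positivity
  · apply inv_lt_one_of_one_lt₀
    exact_mod_cast (hp i).one_lt
  · refine weights_inj (fun i => Nat.nth Nat.Prime (e i)) hp ?_ α β h
    intro i j hij
    exact e.injective (Fin.ext (Nat.nth_injective Nat.infinite_setOfPred_prime hij))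

end Pool.Agent.Helper15.RS
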