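import Mathlib

/-!
# Project RS (MP_eecf71_ag): nonarchimedean absolute values trivial on the ground field
-/

set_option autoImplicit false

namespace Pool.Agent.Helper15.RS

open MvPolynomial

/-- `w` is a nonarchimedean absolute value of `E`, trivial on `k` -/
structure NA (k : Type*) {E : Type*} [Field k] [Field E] [Algebra k E] (w : E → ℝ) : Prop where
  zero : w 0 = 0
  pos : ∀ z, z ≠ 0 → 0 < w z
  mul : ∀ a b, w (a * b) = w a * w b
  add : ∀ a b, w (a + b) ≤ max (w a) (w b)
  alg : ∀ c : k, c ≠ 0 → w (algebraMap k E c) = 1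

section

variable {k : Type*} {E : Type*} [Field k] [Field E] [Algebra k E] {w : E → ℝ}

theorem NA.one (h : NA k w) : w 1 = 1 := by
  have := h.alg 1 one_ne_zero
  rwa [map_one] at this

theorem NA.nonneg (h : NA k w) (z : E) : 0 ≤ w z := by
  rcases eq_or_ne z 0 with rfl | hz
  · rw [h.zero]
  · exact (h.pos z hz).le

theorem NA.neg (h : NA k w) (a : E) : w (-a) = w a := by
  have h1 := h.alg (-1) (neg_ne_zero.2 one_ne_zero)
  rw [map_neg, map_one] at h1
  rw [show -a = -1 * a by ring, h.mul, h1, one_mul]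

theorem NA.sub (h : NA k w) (a b : E) : w (a - b) ≤ max (w a) (w b) := by
  rw [sub_eq_add_neg]
  refine (h.add a (-b)).trans ?_
  rw [h.neg]

theorem NA.sub_comm (h : NA k w) (a b : E) : w (a - b) = w (b - a) := by
  rw [← neg_sub, h.neg]

theorem NA.eq_zero (h : NA k w) {z : E} (hz : w z = 0) : z = 0 := by
  by_contra h0
  exact (h.pos z h0).ne' hz

theorem NA.inv (h : NA k w) (a : E) : w a⁻¹ = (w a)⁻¹ := by
  rcases eq_or_ne a 0 with rfl | ha
  · rw [inv_zero, h.zero, inv_zero]
  · have h1 := h.mul a a⁻¹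
    rw [mul_inv_cancel₀ ha, h.one] at h1
    exact eq_inv_of_mul_eq_one_right h1.symm

theorem NA.div (h : NA k w) (a b : E) : w (a / b) = w a / w b := by
  rw [div_eq_mul_inv, h.mul, h.inv, div_eq_mul_inv]

theorem NA.pow (h : NA k w) (a : E) (n : ℕ) : w (a ^ n) = w a ^ n := by
  induction n with
  | zero => rw [pow_zero, pow_zero, h.one]
  | succ n ih => rw [pow_succ, pow_succ, h.mul, ih]

theorem NA.zpow (h : NA k w) (a : E) (n : ℤ) : w (a ^ n) = w a ^ n := by
  cases n with
  | ofNat n => rw [Int.ofNat_eq_natCast, zpow_natCast, zpow_natCast, h.pow]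
  | negSucc n => rw [zpow_negSucc, zpow_negSucc, h.inv, h.pow]

theorem NA.prod (h : NA k w) {ι : Type*} (s : Finset ι) (f : ι → E) :
    w (∏ i ∈ s, f i) = ∏ i ∈ s, w (f i) := by
  classical
  induction s using Finset.induction_on with
  | empty => rw [Finset.prod_empty, Finset.prod_empty, h.one]
  | insert a s ha ih => rw [Finset.prod_insert ha, Finset.prod_insert ha, h.mul, ih]

theorem NA.add_lt (h : NA k w) {a b : E} {c : ℝ} (ha : w a < c) (hb : w b < c) : w (a + b) < c :=
  (h.add a b).trans_lt (max_lt ha hb)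

theorem NA.sub_lt (h : NA k w) {a b : E} {c : ℝ} (ha : w a < c) (hb : w b < c) : w (a - b) < c :=
  (h.sub a b).trans_lt (max_lt ha hb)

/-- if `a - b` is smaller than `b` then `a` and `b` have the same absolute value -/
theorem NA.eq_of_sub_lt (h : NA k w) {a b : E} (hab : w (a - b) < w b) : w a = w b := by
  apply le_antisymm
  · have h1 := h.add (a - b) b
    rw [sub_add_cancel, max_eq_right hab.le] at h1
    exact h1
  · have h1 := h.sub a (a - b)
    rw [sub_sub_cancel] at h1
    rcases le_max_iff.1 h1 with h2 | h2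
    · exact h2
    · exact absurd hab (not_lt.2 h2)

theorem NA.sum_lt (h : NA k w) {ι : Type*} (s : Finset ι) (f : ι → E) {c : ℝ} (hc : 0 < c)
    (hf : ∀ i ∈ s, w (f i) < c) : w (∑ i ∈ s, f i) < c := by
  classical
  induction s using Finset.induction_on with
  | empty => rwa [Finset.sum_empty, h.zero]
  | insert a s ha ih =>
    rw [Finset.sum_insert ha]
    exact h.add_lt (hf a (Finset.mem_insert_self _ _))
      (ih fun i hi => hf i (Finset.mem_insert_of_mem hi))

theorem NA.sum_le (h : NA k w) {ι : Type*} (s : Finset ι) (f : ι → E) {c : ℝ} (hc : 0 ≤ c)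
    (hf : ∀ i ∈ s, w (f i) ≤ c) : w (∑ i ∈ s, f i) ≤ c := by
  classical
  induction s using Finset.induction_on with
  | empty => rwa [Finset.sum_empty, h.zero]
  | insert a s ha ih =>
    rw [Finset.sum_insert ha]
    exact (h.add _ _).trans (max_le (hf a (Finset.mem_insert_self _ _))
      (ih fun i hi => hf i (Finset.mem_insert_of_mem hi)))

/-- a nonempty sum of nonzero elements with different absolute values is dominated by one of them -/
theorem NA.dom (h : NA k w) {ι : Type*} (s : Finset ι) (hs : s.Nonempty) (f : ι → E)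
    (h0 : ∀ i ∈ s, f i ≠ 0) (hf : ∀ i ∈ s, ∀ j ∈ s, w (f i) = w (f j) → i = j) :
    ∃ i ∈ s, (∀ j ∈ s, j ≠ i → w (f j) < w (f i)) ∧ w (∑ j ∈ s, f j - f i) < w (f i) ∧
      w (∑ j ∈ s, f j) = w (f i) := by
  classical
  obtain ⟨i, hi, hmax⟩ := s.exists_max_image (fun j => w (f j)) hs
  have h1 : ∀ j ∈ s, j ≠ i → w (f j) < w (f i) := fun j hj hji =>
    lt_of_le_of_ne (hmax j hj) fun he => hji (hf j hj i hi he)
  have h2 : w (∑ j ∈ s, f j - f i) < w (f i) := by
    rw [← Finset.sum_erase_add s _ hi, add_sub_cancel_right]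
    refine h.sum_lt _ _ (h.pos _ (h0 i hi)) fun j hj => ?_
    rw [Finset.mem_erase] at hj
    exact h1 j hj.2 hj.1
  exact ⟨i, hi, h1, h2, h.eq_of_sub_lt h2⟩

/-- the monomial `t ^ α` -/
noncomputable def mon {ι : Type*} (t : ι → E) (α : ι →₀ ℕ) : E := α.prod fun i e => t i ^ e

theorem mon_ne_zero {ι : Type*} (t : ι → E) (ht : ∀ i, t i ≠ 0) (α : ι →₀ ℕ) : mon t α ≠ 0 :=
  Finset.prod_ne_zero_iff.2 fun i _ => pow_ne_zero _ (ht i)

theorem NA.mon (h : NA k w) {ι : Type*} (t : ι → E) (α : ι →₀ ℕ) :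
    w (RS.mon t α) = α.prod fun i e => w (t i) ^ e := by
  unfold RS.mon Finsupp.prod
  rw [h.prod]
  exact Finset.prod_congr rfl fun i _ => h.pow _ _

theorem aeval_eq_sum {ι : Type*} (t : ι → E) (P : MvPolynomial ι k) :
    aeval t P = ∑ α ∈ P.support, algebraMap k E (coeff α P) * mon t α := by
  rw [aeval_def, eval₂_eq]
  rfl

/-- a polynomial in elements whose monomials have different absolute values is dominated by one
monomial -/
theorem NA.poly (h : NA k w) {ι : Type*} (t : ι → E) (ht : ∀ i, t i ≠ 0)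
    (hr : ∀ α β : ι →₀ ℕ, w (RS.mon t α) = w (RS.mon t β) → α = β) (P : MvPolynomial ι k) (hP : P ≠ 0) :
    ∃ α ∈ P.support, (∀ β ∈ P.support, β ≠ α → w (RS.mon t β) < w (RS.mon t α)) ∧
      w (aeval t P - algebraMap k E (coeff α P) * RS.mon t α) < w (RS.mon t α) ∧
      w (aeval t P) = w (RS.mon t α) := by
  have h1 : ∀ α ∈ P.support, w (algebraMap k E (coeff α P) * RS.mon t α) = w (RS.mon t α) := by
    intro α hα
    rw [h.mul, h.alg _ (mem_support_iff.1 hα), one_mul]
  obtain ⟨α, hα, h2, h3, h4⟩ := h.dom P.support (support_nonempty.2 hP)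
    (fun α => algebraMap k E (coeff α P) * RS.mon t α)
    (fun α hα => mul_ne_zero (by
      rw [Ne, map_eq_zero_iff _ (algebraMap k E).injective]
      exact mem_support_iff.1 hα) (mon_ne_zero t ht α))
    (fun α hα β hβ he => hr α β (by rw [← h1 α hα, ← h1 β hβ]; exact he))
  rw [← aeval_eq_sum, h1 α hα] at h3 h4
  refine ⟨α, hα, fun β hβ hne => ?_, h3, h4⟩
  have := h2 β hβ hne
  rwa [h1 β hβ, h1 α hα] at this

/-- the absolute value of a polynomial depends only on the absolute values of the elements -/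
theorem NA.poly_eq {E' : Type*} [Field E'] [Algebra k E'] {w' : E' → ℝ} (h : NA k w)
    (h' : NA k w') {ι : Type*} (t : ι → E) (ht : ∀ i, t i ≠ 0)
    (hr : ∀ α β : ι →₀ ℕ, w (RS.mon t α) = w (RS.mon t β) → α = β) (t' : ι → E')
    (he : ∀ i, w (t i) = w' (t' i)) (P : MvPolynomial ι k) :
    w (aeval t P) = w' (aeval t' P) := by
  rcases eq_or_ne P 0 with rfl | hP
  · rw [map_zero, map_zero, h.zero, h'.zero]
  have ht' : ∀ i, t' i ≠ 0 := by
    intro i h0
    have := he i
    rw [h0, h'.zero] at this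
    exact ht i (h.eq_zero this)
  have hm : ∀ α : ι →₀ ℕ, w (RS.mon t α) = w' (RS.mon t' α) := by
    intro α
    rw [h.mon, h'.mon]
    exact Finset.prod_congr rfl fun i _ => by simp only [he]
  obtain ⟨α, hα, h2, -, h4⟩ := h.poly t ht hr P hP
  obtain ⟨β, hβ, h2', -, h4'⟩ := h'.poly t' ht' (fun α β hαβ => hr α β (by rw [hm, hm, hαβ])) P hP
  rw [h4, h4']
  by_contra hne
  have hab : β ≠ α := by
    rintro rfl
    exact hne (hm β)
  have h5 := h2 β hβ hab
  have h6 := h2' α hα hab.symm
  rw [← hm, ← hm] at h6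
  exact lt_asymm h5 h6

end

end Pool.Agent.Helper15.RS
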