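import Pool.Agent.Helper15.RS.Fe

/-!
# Project RS: the main theorem
-/

set_option autoImplicit false

namespace Pool.Agent.Helper15.RS

open IntermediateField Pool.Agent.Helper15.RD

universe u v

variable {k : Type v} {Ω : Type u} [Field k] [Field Ω] [Algebra k Ω]

/-- an automorphism over `A` which fixes the roots is trivial on `A (x)` -/
theorem fix_of_fix {n : ℕ} (x : Fin n → Ω) (A : IntermediateField k Ω) (δ : Ω ≃ₐ[k] Ω)
    (hδ : δ ∈ A.fixingSubgroup) (hx : ∀ i, δ (x i) = x i) :
    ∀ z ∈ A ⊔ adjoin k (Set.range x), δ z = z := by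
  have h1 : A ⊔ adjoin k (Set.range x) ≤
      IntermediateField.fixedField (Subgroup.zpowers δ) := by
    have h2 : ∀ y : Ω, δ y = y → y ∈ IntermediateField.fixedField (Subgroup.zpowers δ) := by
      intro y hy
      rw [IntermediateField.mem_fixedField_iff]
      intro f hf
      have h5 : Subgroup.zpowers δ ≤ MulAction.stabilizer (Ω ≃ₐ[k] Ω) y := by
        rw [Subgroup.zpowers_le]
        exact hy
      exact h5 hf
    refine sup_le (fun y hy => h2 y ?_) ?_
    · exact (IntermediateField.mem_fixingSubgroup_iff _ _).1 hδ _ hy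
    · rw [IntermediateField.adjoin_le_iff]
      rintro _ ⟨i, rfl⟩
      exact h2 _ (hx i)
  intro z hz
  have h6 := h1 hz
  rw [IntermediateField.mem_fixedField_iff] at h6
  exact h6 δ (Subgroup.mem_zpowers δ)

/-- an automorphism which permutes the roots fixes the coefficients -/
theorem mem_fix_coeff {n : ℕ} (x : Fin n → Ω) (σ : Ω ≃ₐ[k] Ω) (π : Equiv.Perm (Fin n))
    (hσ : ∀ i, σ (x i) = x (π i)) : σ ∈ (coeffField k x).fixingSubgroup := by
  have hp : (∏ i, (Polynomial.X - Polynomial.C (x i))).map (σ : Ω →+* Ω) =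
      ∏ i, (Polynomial.X - Polynomial.C (x i)) := by
    rw [Polynomial.map_prod, ← Equiv.prod_comp π fun i => (Polynomial.X - Polynomial.C (x i))]
    refine Finset.prod_congr rfl fun i _ => ?_
    rw [Polynomial.map_sub, Polynomial.map_X, Polynomial.map_C]
    congr 2
    exact hσ i
  rw [IntermediateField.mem_fixingSubgroup_iff]
  intro z hz
  have h2 : ∀ y ∈ Set.range fun j : ℕ => (∏ i, (Polynomial.X - Polynomial.C (x i))).coeff j,
      σ y = y := by
    rintro y ⟨j, rfl⟩
    have h3 := congrArg (fun p => Polynomial.coeff p j) hp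
    rw [Polynomial.coeff_map] at h3
    exact h3
  have h4 : coeffField k x ≤ IntermediateField.fixedField (Subgroup.zpowers σ) := by
    unfold coeffField
    rw [IntermediateField.adjoin_le_iff]
    intro y hy
    rw [SetLike.mem_coe, IntermediateField.mem_fixedField_iff]
    intro f hf
    have h5 : Subgroup.zpowers σ ≤ MulAction.stabilizer (Ω ≃ₐ[k] Ω) y := by
      rw [Subgroup.zpowers_le]
      exact h2 y hy
    exact h5 hf
  have h6 := h4 hz
  rw [IntermediateField.mem_fixedField_iff] at h6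
  exact h6 σ (Subgroup.mem_zpowers σ)

/-- at the step in which the alternating group disappears the rank is at most `d` -/
theorem final_rank [IsAlgClosed Ω] [CharZero k] {V : Type*} [CommGroup V] [Finite V] {w : Ω → ℝ}
    (h : NA k w) (hr : Res k w) (p : ℕ) [hp : Fact p.Prime] (hV : ∀ v : V, v ^ p = 1) {n : ℕ}
    (hn : 5 ≤ n) (x : Fin n → Ω) (hx : AlgebraicIndependent k x)
    (hΩ : Algebra.IsAlgebraic (adjoin k (Set.range x)) Ω) (l : V →* Equiv.Perm (Fin n))
    (hl : Function.Injective l) {d : ℕ} {A B : IntermediateField k Ω} (hA : coeffField k x ≤ A)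
    (hst : PStep d A B) (h1 : alternatingGroup (Fin n) ≤ Im x A)
    (h2 : ¬ alternatingGroup (Fin n) ≤ Im x B) : Nat.card (Pp w x l A) ≤ p ^ d := by
  classical
  obtain ⟨E, hE, htd, hstab, hfaith⟩ := exists_field_gen hn x hx hΩ d A B hA hst h1 h2
  let a : Gp w x l A →* (Ω ≃ₐ[k] Ω) := (MonoidHom.fst _ _).comp (Gp w x l A).subtype
  let π : Gp w x l A →* V := (MonoidHom.snd _ _).comp (Gp w x l A).subtype
  have hπ : π.range = Pp w x l A := by
    ext v
    constructor
    · rintro ⟨g, rfl⟩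
      exact ⟨g, g.2, rfl⟩
    · rintro ⟨g, hg, rfl⟩
      exact ⟨⟨g, hg⟩, rfl⟩
  rw [← hπ]
  refine rank_bound h hr p E d htd a (fun g => g.2.1) (fun g => hstab _ g.2.2.1) ?_ π
    (fun g => ?_) (fun g hg => ?_)
  · have h4 : ∀ v : V, ∃ r : E → Ω, ∀ g : Gp w x l A, π g = v → (fun z : E => a g (z : Ω)) = r := by
      intro v
      by_cases hv : ∃ g0 : Gp w x l A, π g0 = v
      · obtain ⟨g0, hg0⟩ := hv
        refine ⟨fun z => a g0 (z : Ω), fun g hg => ?_⟩
        funext z
        have h5 : ∀ i, (a g)⁻¹ (a g0 (x i)) = x i := by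
          intro i
          have e1 : a g (x i) = x (l (π g) i) := g.2.2.2 i
          have e2 : a g0 (x i) = x (l (π g0) i) := g0.2.2.2 i
          rw [e2, hg0, ← hg, ← e1, ← AlgEquiv.mul_apply, inv_mul_cancel, AlgEquiv.one_apply]
        have h6 := fix_of_fix x A ((a g)⁻¹ * a g0) (mul_mem (inv_mem g.2.2.1) g0.2.2.1) h5 z
          (hE z.2)
        have h7 := congrArg (a g) h6
        rw [← AlgEquiv.mul_apply, mul_inv_cancel_left] at h7
        exact h7.symm
      · exact ⟨fun _ => 0, fun g hg => absurd ⟨g, hg⟩ hv⟩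
    choose r hr' using h4
    refine (Set.finite_range r).subset ?_
    rintro _ ⟨g, rfl⟩
    exact ⟨π g, (hr' _ g rfl).symm⟩
  · rw [← map_pow]
    show ((g ^ p : Gp w x l A) : (Ω ≃ₐ[k] Ω) × V).2 = 1
    rw [Subgroup.coe_pow, Prod.pow_snd]
    exact hV _
  · apply hl
    rw [map_one]
    refine Equiv.ext fun i => hx.injective ?_
    have e1 : a g (x i) = x (l (π g) i) := g.2.2.2 i
    rw [← e1]
    exact hfaith (a g) g.2.2.1 hg i

/-- the rank after `j` steps -/
theorem chain_rank [IsAlgClosed k] [CharZero k] [IsAlgClosed Ω] {n : ℕ} (hn : 0 < n)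
    (x : Fin n → Ω) (hx : AlgebraicIndependent k x)
    (hΩ : Algebra.IsAlgebraic (adjoin k (Set.range x)) Ω) (d : ℕ → ℕ) (r : ℕ)
    (T : ℕ → IntermediateField k Ω) (h0 : T 0 = coeffField k x)
    (hT : ∀ i < r, PStep (d i) (T i) (T (i + 1))) (p s m : ℕ) [hp : Fact p.Prime]
    (β : (Fin s × ZMod p) ⊕ Fin m ≃ Fin n) (j : ℕ) (hj : j ≤ r) :
    ∃ (w : Ω → ℝ) (l : Multiplicative (Fin s → ZMod p) →* Equiv.Perm (Fin n)),
      NA k w ∧ Res k w ∧ Function.Injective l ∧
      p ^ s ≤ p ^ (∑ i ∈ Finset.range j, min (d i) (padicValNat p (relfinrank (T i) (T (i + 1))))) *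
        Nat.card (Pp w x l (T j)) := by
  have hne : NeZero p := ⟨hp.out.ne_zero⟩
  have hVc : Nat.card (Multiplicative (Fin s → ZMod p)) = p ^ s := by
    rw [Nat.card_congr Multiplicative.toAdd, Nat.card_fun, Nat.card_zmod, Nat.card_fin]
  have hVp : ∀ v : Multiplicative (Fin s → ZMod p), v ^ p = 1 := by
    intro v
    apply Multiplicative.toAdd.injective
    rw [toAdd_pow, toAdd_one]
    funext i
    rw [Pi.smul_apply, nsmul_eq_mul, CharP.cast_eq_zero, zero_mul, Pi.zero_apply]
  have hVP : IsPGroup p (Multiplicative (Fin s → ZMod p)) := IsPGroup.of_card hVc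
  have hmono : ∀ i ≤ r, coeffField k x ≤ T i := by
    intro i
    induction i with
    | zero =>
      intro _
      rw [h0]
    | succ i ih =>
      intro hi
      exact (ih (by omega)).trans (hT i (by omega)).1
  induction j with
  | zero =>
    obtain ⟨w, hw, hr, hσ⟩ := exists_abs_rot hn x hx hΩ p s m β
    refine ⟨w, rot β, hw, hr, rot_injective β, ?_⟩
    have h1 : Pp w x (rot β) (T 0) = ⊤ := by
      rw [eq_top_iff]
      intro v _
      obtain ⟨σ, h1, h2⟩ := hσ v
      rw [mem_Pp]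
      refine ⟨σ, h1, ?_, h2⟩
      rw [h0]
      exact mem_fix_coeff x σ _ h2
    rw [h1, Subgroup.card_top, hVc, Finset.range_zero, Finset.sum_empty, pow_zero, one_mul]
  | succ j ih =>
    obtain ⟨w, l, hw, hr, hl, hle⟩ := ih (by omega)
    have hst := hT j (by omega)
    obtain ⟨τ, hτ, ρ, hρ, h1⟩ := step_val (w := w) p hVP x hx.injective hΩ l
      (hmono j (by omega)) hst.1 hst.finite
    have h2 := step_rank (NA_comp hw τ) (Res_comp hr τ) p hVp x (cj ρ l) hst
    have h3 : Nat.card (Pp w x l (T j)) ≤ Nat.card (Pp (fun z => w (τ z)) x (cj ρ l) (T j)) :=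
      Nat.card_le_card_of_injective _ (Subgroup.inclusion_injective (Pp_comp_eq τ ρ hρ hτ))
    refine ⟨_, _, NA_comp hw τ, Res_comp hr τ, cj_injective ρ hl, hle.trans ?_⟩
    rw [Finset.sum_range_succ, pow_add, mul_assoc]
    refine Nat.mul_le_mul_left _ ?_
    rcases min_cases (d j) (padicValNat p (relfinrank (T j) (T (j + 1)))) with h4 | h4
    · rw [h4.1]
      exact h3.trans h2
    · rw [h4.1]
      exact h1

/-- the main theorem -/
theorem main [IsAlgClosed k] [CharZero k] [IsAlgClosed Ω] {n : ℕ} (hn : 5 ≤ n) (x : Fin n → Ω)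
    (hx : AlgebraicIndependent k x) (hΩ : Algebra.IsAlgebraic (adjoin k (Set.range x)) Ω)
    (d : ℕ → ℕ) (r : ℕ) (T : ℕ → IntermediateField k Ω) (h0 : T 0 = coeffField k x)
    (hT : ∀ i < r, PStep (d i) (T i) (T (i + 1))) (hr : ∃ i, x i ∈ T r) :
    ∃ i < r, (∀ j, x j ∉ T i) ∧ ∀ p : ℕ, p.Prime →
      n / p ≤ d i +
        ∑ j ∈ Finset.range i, min (d j) (padicValNat p (relfinrank (T j) (T (j + 1)))) := by
  classical
  obtain ⟨i0, hi0⟩ := hr
  have hP0 : alternatingGroup (Fin n) ≤ Im x (T 0) := by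
    rw [h0, Im_top x hx hΩ]
    exact le_top
  have hPr : ∃ m, ¬ alternatingGroup (Fin n) ≤ Im x (T m) :=
    ⟨r, Im_stop hn x hx.injective (T r) i0 hi0⟩
  have hm := Nat.find_spec hPr
  have hmr : Nat.find hPr ≤ r := Nat.find_min' hPr (Im_stop hn x hx.injective (T r) i0 hi0)
  have hm0 : Nat.find hPr ≠ 0 := by
    intro h
    rw [h] at hm
    exact hm hP0
  obtain ⟨i, hi⟩ := Nat.exists_eq_succ_of_ne_zero hm0
  rw [Nat.succ_eq_add_one] at hi
  have h1 : alternatingGroup (Fin n) ≤ Im x (T i) := by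
    by_contra h
    exact Nat.find_min hPr (by omega : i < Nat.find hPr) h
  rw [hi] at hm
  have hir : i < r := by omega
  refine ⟨i, hir, fun j hj => Im_stop hn x hx.injective (T i) j hj h1, fun p hp => ?_⟩
  have hF : Fact p.Prime := ⟨hp⟩
  have hne : NeZero p := ⟨hp.ne_zero⟩
  obtain ⟨β⟩ := exists_rot p (n / p) n (Nat.div_mul_le_self n p)
  obtain ⟨w, l, hw, hres, hl, hle⟩ := chain_rank (by omega) x hx hΩ d r T h0 hT p (n / p) _ β i hir.le
  have hmono : ∀ i ≤ r, coeffField k x ≤ T i := by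
    intro i
    induction i with
    | zero =>
      intro _
      rw [h0]
    | succ i ih =>
      intro hi
      exact (ih (by omega)).trans (hT i (by omega)).1
  have hVp : ∀ v : Multiplicative (Fin (n / p) → ZMod p), v ^ p = 1 := by
    intro v
    apply Multiplicative.toAdd.injective
    rw [toAdd_pow, toAdd_one]
    funext i
    rw [Pi.smul_apply, nsmul_eq_mul, CharP.cast_eq_zero, zero_mul, Pi.zero_apply]
  have h2 := final_rank hw hres p hVp hn x hx hΩ l hl (hmono i hir.le) (hT i hir) h1 hm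
  have h3 := hle.trans (Nat.mul_le_mul_left _ h2)
  rw [← pow_add] at h3
  have h4 := (Nat.pow_le_pow_iff_right hp.one_lt).1 h3
  omega

end Pool.Agent.Helper15.RS
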