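import Mathlib

/-!
# Project RS: two counting lemmas
-/

set_option autoImplicit false

namespace Pool.Agent.Helper15.RS

/-- a homomorphism of exponent `p` which factors through an abelian group -/
theorem card_range_le {G H Q : Type*} [Group G] [CommGroup H] [Group Q] (p : ℕ) (χ : G →* H)
    (π : G →* Q) [Finite χ.range] (h1 : χ.ker ≤ π.ker) (h2 : ∀ g, π g ^ p = 1) :
    Nat.card π.range ≤ Nat.card (powMonoidHom p : χ.range →* χ.range).ker := by
  have hc : Nat.card χ.range ≠ 0 := Nat.card_pos.ne'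
  have e1 : (powMonoidHom p : χ.range →* χ.range).range.index =
      Nat.card (powMonoidHom p : χ.range →* χ.range).ker := by
    have a1 := Subgroup.card_mul_index (powMonoidHom p : χ.range →* χ.range).ker
    have a2 := Subgroup.card_mul_index (powMonoidHom p : χ.range →* χ.range).range
    rw [Subgroup.index_ker] at a1
    rw [← a2, mul_comm] at a1
    refine (Nat.eq_of_mul_eq_mul_left ?_ a1).symm
    exact Nat.card_pos
  have e2 : ((powMonoidHom p : χ.range →* χ.range).range.comap χ.rangeRestrict).index =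
      (powMonoidHom p : χ.range →* χ.range).range.index :=
    Subgroup.index_comap_of_surjective _ χ.rangeRestrict_surjective
  have h3 : (powMonoidHom p : χ.range →* χ.range).range.comap χ.rangeRestrict ≤ π.ker := by
    intro g hg
    rw [Subgroup.mem_comap] at hg
    obtain ⟨y, hy⟩ := hg
    obtain ⟨g', rfl⟩ := χ.rangeRestrict_surjective y
    have h4 : χ g' ^ p = χ g := congrArg Subtype.val hy
    have h5 : g * (g' ^ p)⁻¹ ∈ χ.ker := by
      rw [MonoidHom.mem_ker, map_mul, map_inv, map_pow, h4, mul_inv_cancel]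
    have h6 := h1 h5
    rw [MonoidHom.mem_ker, map_mul, map_inv, map_pow, h2, inv_one, mul_one] at h6
    exact h6
  rw [← Subgroup.index_ker, ← e1, ← e2]
  refine Nat.le_of_dvd ?_ (Subgroup.index_dvd_of_le h3)
  rw [e2, e1]
  exact Nat.card_pos

/-- a finite set of characters of order `p` is determined by `d` elements, if any `d + 1` elements
satisfy a relation with an exponent prime to `p` -/
theorem card_chars_le {Z K : Type*} [CommGroup Z] [Field K] (p : ℕ) [hp : Fact p.Prime] (d : ℕ)
    (T : Set (Z →* Kˣ)) (hT : T.Finite) (h2 : ∀ χ ∈ T, ∀ z, χ z ^ p = 1)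
    (hrel : ∀ z : Fin (d + 1) → Z, ∃ a : Fin (d + 1) → ℤ, (∃ i, ¬ (p : ℤ) ∣ a i) ∧
      ∀ χ ∈ T, ∏ i, χ (z i) ^ a i = 1) :
    Nat.card T ≤ p ^ d := by
  classical
  -- the separating sets
  let Sep : Finset Z → Prop := fun S => ∀ χ ∈ T, ∀ χ' ∈ T, (∀ z ∈ S, χ z = χ' z) → χ = χ'
  have hex : ∃ S : Finset Z, Sep S := by
    have h4 : ∀ q : (Z →* Kˣ) × (Z →* Kˣ), ∃ z : Z, q.1 ≠ q.2 → q.1 z ≠ q.2 z := by
      intro q
      by_cases h : q.1 = q.2
      · exact ⟨1, fun h' => absurd h h'⟩
      · obtain ⟨z, hz⟩ := DFunLike.ne_iff.1 h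
        exact ⟨z, fun _ => hz⟩
    choose f hf using h4
    refine ⟨(hT.toFinset ×ˢ hT.toFinset).image f, fun χ hχ χ' hχ' h => ?_⟩
    by_contra hne
    refine hf (χ, χ') hne (h _ ?_)
    refine Finset.mem_image_of_mem f (Finset.mem_product.2 ⟨?_, ?_⟩)
    · exact hT.mem_toFinset.2 hχ
    · exact hT.mem_toFinset.2 hχ'
  have hne : {n | ∃ S : Finset Z, Sep S ∧ S.card = n}.Nonempty := by
    obtain ⟨S, hS⟩ := hex
    exact ⟨_, S, hS, rfl⟩
  obtain ⟨S, hS, hSn⟩ := Nat.sInf_mem hne
  have hmin : ∀ S' : Finset Z, Sep S' → S.card ≤ S'.card := by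
    intro S' hS'
    rw [hSn]
    exact Nat.sInf_le ⟨S', hS', rfl⟩
  have hSd : S.card ≤ d := by
    by_contra hlt
    rw [not_le] at hlt
    obtain ⟨S1, hS1, hS1c⟩ := Finset.exists_subset_card_eq (Nat.succ_le_of_lt hlt)
    let e : Fin (d + 1) ≃ S1 := (S1.equivFinOfCardEq hS1c).symm
    obtain ⟨a, ⟨i0, hi0⟩, ha⟩ := hrel (fun i => (e i : Z))
    have h5 : Sep (S.erase (e i0)) := by
      intro χ hχ χ' hχ' h
      apply hS χ hχ χ' hχ'
      intro z hz
      by_cases hze : z = e i0
      · have h6 : ∀ i, i ≠ i0 → χ (e i) = χ' (e i) := by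
          intro i hi
          apply h
          rw [Finset.mem_erase]
          refine ⟨fun h7 => hi ?_, hS1 (e i).2⟩
          exact e.injective (Subtype.ext h7)
        have h7 := (ha χ hχ).trans (ha χ' hχ').symm
        rw [← Finset.mul_prod_erase Finset.univ _ (Finset.mem_univ i0),
          ← Finset.mul_prod_erase Finset.univ (fun i => χ' (e i) ^ a i) (Finset.mem_univ i0)] at h7
        have h8 : ∏ i ∈ Finset.univ.erase i0, χ (e i) ^ a i =
            ∏ i ∈ Finset.univ.erase i0, χ' (e i) ^ a i := by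
          refine Finset.prod_congr rfl fun i hi => ?_
          rw [h6 i (Finset.ne_of_mem_erase hi)]
        rw [h8, mul_left_inj] at h7
        have hcop : IsCoprime (p : ℤ) (a i0) :=
          (Nat.prime_iff_prime_int.1 hp.out).coprime_iff_not_dvd.2 hi0
        obtain ⟨b, c, hbc⟩ := hcop
        have h9 : ∀ χ ∈ T, (χ (e i0) ^ a i0) ^ c = χ (e i0) := by
          intro χ hχ
          rw [← zpow_mul]
          have h10 : a i0 * c = 1 - p * b := by linarith
          have h11 : χ (e i0) ^ (p : ℤ) = 1 := by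
            rw [zpow_natCast]
            exact h2 χ hχ (e i0)
          rw [h10, zpow_sub, zpow_mul, h11, one_zpow, zpow_one, inv_one, mul_one]
        rw [hze, ← h9 χ hχ, ← h9 χ' hχ', h7]
      · exact h z (Finset.mem_erase.2 ⟨hze, hz⟩)
    have h6 := hmin _ h5
    rw [Finset.card_erase_of_mem (hS1 (e i0).2)] at h6
    omega
  -- injection
  have : NeZero p := ⟨hp.out.ne_zero⟩
  have hinj : Function.Injective (fun (χ : T) (z : S) =>
      (⟨(χ : Z →* Kˣ) z, (mem_rootsOfUnity p _).2 (h2 χ χ.2 z)⟩ : rootsOfUnity p K)) := by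
    intro χ χ' h
    apply Subtype.ext
    apply hS χ χ.2 χ' χ'.2
    intro z hz
    exact congrArg Subtype.val (congrFun h ⟨z, hz⟩)
  have h3 := Nat.card_le_card_of_injective _ hinj
  have h4 : Nat.card S = S.card := by rw [Nat.card_eq_fintype_card, Fintype.card_coe]
  have h5 : Nat.card (rootsOfUnity p K) ≤ p := card_rootsOfUnity K p
  rw [Nat.card_fun, h4] at h3
  exact h3.trans ((Nat.pow_le_pow_left h5 _).trans (Nat.pow_le_pow_right hp.out.pos hSd))

end Pool.Agent.Helper15.RS
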