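import Pool.Agent.Helper15.RS.Ex
import Pool.Agent.Helper15.RS.Rg
import Pool.Agent.Helper15.RD.Td

/-!
# Project RS: the rank of a finite group of isometries
-/

set_option autoImplicit false

namespace Pool.Agent.Helper15.RS

open MvPolynomial IntermediateField Pool.Agent.Helper15.RD

section

variable {k : Type*} {Ω : Type*} [Field k] [Field Ω] [Algebra k Ω] {w : Ω → ℝ}

open Classical in
/-- the residue of an element of absolute value `1` -/
noncomputable def res (k : Type*) {Ω : Type*} [Field k] [Field Ω] [Algebra k Ω] (w : Ω → ℝ)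
    (y : Ω) : k := if h : ∃ c : k, w (y - algebraMap k Ω c) < 1 then h.choose else 0

theorem res_spec (hr : Res k w) {y : Ω} (hy : w y = 1) : w (y - algebraMap k Ω (res k w y)) < 1 := by
  have h := hr y hy
  unfold res
  rw [dif_pos h]
  exact h.choose_spec

theorem res_eq (h : NA k w) (hr : Res k w) {y : Ω} (hy : w y = 1) {c : k}
    (hc : w (y - algebraMap k Ω c) < 1) : res k w y = c := by
  by_contra hne
  have h1 := h.sub_lt hc (res_spec hr hy)
  rw [sub_sub_sub_cancel_left, ← map_sub, h.alg _ (sub_ne_zero.2 hne)] at h1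
  exact lt_irrefl _ h1

theorem res_ne_zero (hr : Res k w) {y : Ω} (hy : w y = 1) : res k w y ≠ 0 := by
  intro h0
  have h1 := res_spec hr hy
  rw [h0, map_zero, sub_zero, hy] at h1
  exact lt_irrefl _ h1

theorem res_one (h : NA k w) (hr : Res k w) : res k w (1 : Ω) = 1 := by
  refine res_eq h hr h.one ?_
  rw [map_one, sub_self, h.zero]
  exact one_pos

theorem res_mul (h : NA k w) (hr : Res k w) {y y' : Ω} (hy : w y = 1) (hy' : w y' = 1) :
    res k w (y * y') = res k w y * res k w y' := by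
  refine res_eq h hr (by rw [h.mul, hy, hy', one_mul]) ?_
  rw [map_mul]
  have h1 : y * y' - algebraMap k Ω (res k w y) * algebraMap k Ω (res k w y') =
      y * (y' - algebraMap k Ω (res k w y')) +
        algebraMap k Ω (res k w y') * (y - algebraMap k Ω (res k w y)) := by ring
  rw [h1]
  refine h.add_lt ?_ ?_
  · rw [h.mul, hy, one_mul]
    exact res_spec hr hy'
  · rw [h.mul, h.alg _ (res_ne_zero hr hy'), one_mul]
    exact res_spec hr hy

theorem res_map (h : NA k w) (hr : Res k w) (σ : Ω ≃ₐ[k] Ω) (hσ : ∀ z, w (σ z) = w z) {y : Ω}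
    (hy : w y = 1) : res k w (σ y) = res k w y := by
  refine res_eq h hr (by rw [hσ, hy]) ?_
  rw [← σ.commutes (res k w y), ← map_sub, hσ]
  exact res_spec hr hy

/-- the isometries -/
def Iso (k : Type*) {Ω : Type*} [Field k] [Field Ω] [Algebra k Ω] (w : Ω → ℝ) :
    Subgroup (Ω ≃ₐ[k] Ω) where
  carrier := {σ | ∀ z, w (σ z) = w z}
  mul_mem' := by
    intro σ τ hσ hτ z
    rw [AlgEquiv.mul_apply, hσ, hτ]
  one_mem' := fun z => rfl
  inv_mem' := by
    intro σ hσ z
    rw [← hσ (σ⁻¹ z), ← AlgEquiv.mul_apply, mul_inv_cancel, AlgEquiv.one_apply]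

theorem mem_Iso {σ : Ω ≃ₐ[k] Ω} : σ ∈ Iso k w ↔ ∀ z, w (σ z) = w z := Iff.rfl

theorem w_quot (h : NA k w) {σ : Ω ≃ₐ[k] Ω} (hσ : σ ∈ Iso k w) {z : Ω} (hz : z ≠ 0) :
    w (σ z / z) = 1 := by
  rw [h.div, mem_Iso.1 hσ, div_self (h.pos z hz).ne']

/-- the character -/
noncomputable def chiU (h : NA k w) (hr : Res k w) (σ : Iso k w) : Ωˣ →* kˣ :=
  MonoidHom.toHomUnits
    { toFun := fun z => res k w ((σ : Ω ≃ₐ[k] Ω) (z : Ω) / (z : Ω))
      map_one' := by
        rw [Units.val_one, map_one, div_one]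
        exact res_one h hr
      map_mul' := by
        intro z z'
        rw [← res_mul h hr (w_quot h σ.2 z.ne_zero) (w_quot h σ.2 z'.ne_zero), Units.val_mul,
          map_mul, mul_div_mul_comm] }

theorem chiU_coe (h : NA k w) (hr : Res k w) (σ : Iso k w) (z : Ωˣ) :
    ((chiU h hr σ z : kˣ) : k) = res k w ((σ : Ω ≃ₐ[k] Ω) (z : Ω) / (z : Ω)) := rfl

/-- the characters form a homomorphism -/
noncomputable def chi (h : NA k w) (hr : Res k w) : Iso k w →* (Ωˣ →* kˣ) where
  toFun := chiU h hr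
  map_one' := by
    apply MonoidHom.ext
    intro z
    apply Units.ext
    rw [chiU_coe, MonoidHom.one_apply, Units.val_one]
    show res k w ((1 : Ω ≃ₐ[k] Ω) (z : Ω) / (z : Ω)) = 1
    rw [AlgEquiv.one_apply, div_self z.ne_zero]
    exact res_one h hr
  map_mul' := by
    intro σ τ
    apply MonoidHom.ext
    intro z
    apply Units.ext
    rw [chiU_coe, MonoidHom.mul_apply, Units.val_mul, chiU_coe, chiU_coe]
    have h1 : (σ : Ω ≃ₐ[k] Ω) ((τ : Ω ≃ₐ[k] Ω) (z : Ω)) / (z : Ω) =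
        ((σ : Ω ≃ₐ[k] Ω) (z : Ω) / (z : Ω)) *
          (σ : Ω ≃ₐ[k] Ω) ((τ : Ω ≃ₐ[k] Ω) (z : Ω) / (z : Ω)) := by
      rw [map_div₀]
      have h2 : (σ : Ω ≃ₐ[k] Ω) (z : Ω) ≠ 0 := (map_ne_zero _).2 z.ne_zero
      have h3 : (z : Ω) ≠ 0 := z.ne_zero
      field_simp
    show res k w ((σ : Ω ≃ₐ[k] Ω) ((τ : Ω ≃ₐ[k] Ω) (z : Ω)) / (z : Ω)) = _
    rw [h1, res_mul h hr (w_quot h σ.2 z.ne_zero)
      (by rw [mem_Iso.1 σ.2]; exact w_quot h τ.2 z.ne_zero),
      res_map h hr σ (mem_Iso.1 σ.2) (w_quot h τ.2 z.ne_zero)]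

theorem chi_coe (h : NA k w) (hr : Res k w) (σ : Iso k w) (z : Ωˣ) :
    ((chi h hr σ z : kˣ) : k) = res k w ((σ : Ω ≃ₐ[k] Ω) (z : Ω) / (z : Ω)) := rfl

/-- the character is trivial on the units -/
theorem chi_eq_one (h : NA k w) (hr : Res k w) (σ : Iso k w) (z : Ωˣ) (hz : w (z : Ω) = 1) :
    chi h hr σ z = 1 := by
  apply Units.ext
  rw [chi_coe, Units.val_one]
  have h1 := res_mul h hr (w_quot h σ.2 z.ne_zero) hz
  rw [div_mul_cancel₀ _ z.ne_zero, res_map h hr σ (mem_Iso.1 σ.2) hz] at h1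
  exact (mul_left_eq_self₀.1 h1.symm).resolve_right (res_ne_zero hr hz)

theorem chi_trivial (h : NA k w) (hr : Res k w) (σ : Iso k w) (z : Ωˣ) (hz : chi h hr σ z = 1) :
    w ((σ : Ω ≃ₐ[k] Ω) (z : Ω) - z) < w (z : Ω) := by
  have h1 := res_spec hr (w_quot h σ.2 z.ne_zero)
  rw [← chi_coe h hr, hz, Units.val_one, map_one] at h1
  have h2 : (σ : Ω ≃ₐ[k] Ω) (z : Ω) - z = ((σ : Ω ≃ₐ[k] Ω) (z : Ω) / z - 1) * z := by
    rw [sub_mul, div_mul_cancel₀ _ z.ne_zero, one_mul]
  rw [h2, h.mul]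
  exact mul_lt_of_lt_one_left (h.pos _ z.ne_zero) h1

/-- Lemma 1: an isometry of finite order with trivial character is trivial. -/
theorem tame [CharZero k] (h : NA k w) (σ : Ω ≃ₐ[k] Ω) (hσ : σ ∈ Iso k w)
    (M : IntermediateField k Ω) (hM : ∀ z ∈ M, σ z ∈ M)
    (hc : ∀ z ∈ M, z ≠ 0 → w (σ z - z) < w z) (N : ℕ) (hN : 0 < N)
    (hf : ∀ z ∈ M, (σ ^ N) z = z) : ∀ z ∈ M, σ z = z := by
  have hMp : ∀ (i : ℕ), ∀ z ∈ M, (σ ^ i) z ∈ M := by
    intro i
    induction i with
    | zero =>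
      intro z hz
      exact hz
    | succ i ih =>
      intro z hz
      rw [pow_succ', AlgEquiv.mul_apply]
      exact hM _ (ih z hz)
  have hcp : ∀ (i : ℕ), ∀ z ∈ M, z ≠ 0 → w ((σ ^ i) z - z) < w z := by
    intro i
    induction i with
    | zero =>
      intro z hz hz0
      rw [pow_zero, AlgEquiv.one_apply, sub_self, h.zero]
      exact h.pos z hz0
    | succ i ih =>
      intro z hz hz0
      have h1 : (σ ^ (i + 1)) z - z = σ ((σ ^ i) z - z) + (σ z - z) := by
        rw [pow_succ', AlgEquiv.mul_apply, map_sub]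
        ring
      rw [h1]
      refine h.add_lt ?_ (hc z hz hz0)
      rw [mem_Iso.1 hσ]
      exact ih z hz hz0
  have hNk : (N : k) ≠ 0 := Nat.cast_ne_zero.2 hN.ne'
  have hwN : w (N : Ω) = 1 := by
    have := h.alg (N : k) hNk
    rwa [map_natCast] at this
  have hN0 : (N : Ω) ≠ 0 := by
    intro h0
    rw [h0, h.zero] at hwN
    exact zero_ne_one hwN
  -- the trace is invariant
  have htr : ∀ z ∈ M, σ (∑ i ∈ Finset.range N, (σ ^ i) z) = ∑ i ∈ Finset.range N, (σ ^ i) z := by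
    intro z hz
    have h1 : σ (∑ i ∈ Finset.range N, (σ ^ i) z) = ∑ i ∈ Finset.range N, (σ ^ (i + 1)) z := by
      rw [map_sum]
      refine Finset.sum_congr rfl fun i _ => ?_
      rw [pow_succ', AlgEquiv.mul_apply]
    have h2 := Finset.sum_range_succ' (fun i => (σ ^ i) z) N
    have h3 := Finset.sum_range_succ (fun i => (σ ^ i) z) N
    rw [h1]
    rw [h2] at h3
    rw [hf z hz, pow_zero, AlgEquiv.one_apply] at h3
    exact add_right_cancel h3
  have htrp : ∀ z ∈ M, ∀ i : ℕ, (σ ^ i) (∑ j ∈ Finset.range N, (σ ^ j) z) =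
      ∑ j ∈ Finset.range N, (σ ^ j) z := by
    intro z hz i
    induction i with
    | zero => rfl
    | succ i ih => rw [pow_succ', AlgEquiv.mul_apply, ih, htr z hz]
  intro z hz
  obtain ⟨t, ht⟩ : ∃ t, t = ∑ i ∈ Finset.range N, (σ ^ i) z := ⟨_, rfl⟩
  obtain ⟨y, hy⟩ : ∃ y, y = (N : Ω) * z - t := ⟨_, rfl⟩
  have hyM : y ∈ M := by
    rw [hy, ht]
    exact sub_mem (mul_mem (IntermediateField.natCast_mem M N) hz) (sum_mem fun i _ => hMp i z hz)
  have hy0 : ∑ i ∈ Finset.range N, (σ ^ i) y = 0 := by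
    have h1 : ∀ i, (σ ^ i) y = (N : Ω) * (σ ^ i) z - t := by
      intro i
      rw [hy, map_sub, map_mul, map_natCast, ht, htrp z hz i]
    simp only [h1]
    rw [Finset.sum_sub_distrib, ← Finset.mul_sum, ← ht, Finset.sum_const, Finset.card_range,
      nsmul_eq_mul, sub_self]
  have hyz : y = 0 := by
    by_contra hne
    have h1 : w (∑ i ∈ Finset.range N, (σ ^ i) y - (N : Ω) * y) < w y := by
      have h2 : ∑ i ∈ Finset.range N, (σ ^ i) y - (N : Ω) * y =
          ∑ i ∈ Finset.range N, ((σ ^ i) y - y) := by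
        rw [Finset.sum_sub_distrib, Finset.sum_const, Finset.card_range, nsmul_eq_mul]
      rw [h2]
      exact h.sum_lt _ _ (h.pos y hne) fun i _ => hcp i y hyM hne
    rw [hy0, zero_sub, h.neg, h.mul, hwN, one_mul] at h1
    exact lt_irrefl _ h1
  rw [hyz, eq_comm, sub_eq_zero] at hy
  have h2 : (N : Ω) * σ z = (N : Ω) * z := by
    rw [← map_natCast σ N, ← map_mul, hy, ht, htr z hz, ← ht, ← hy, map_natCast]
  exact mul_left_cancel₀ hN0 h2

/-- Lemma 2: dependent elements satisfy a multiplicative relation of absolute values. -/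
theorem relation (h : NA k w) (p : ℕ) (hp : 1 < p) (M : IntermediateField k Ω) (d : ℕ)
    (hM : TD k (M : Set Ω) d) (z : Fin (d + 1) → Ω) (hzM : ∀ i, z i ∈ M) (hz : ∀ i, z i ≠ 0) :
    ∃ a : Fin (d + 1) → ℤ, (∃ i, ¬ (p : ℤ) ∣ a i) ∧ w (∏ i, z i ^ a i) = 1 := by
  classical
  have h1 := hM z hzM
  rw [algebraicIndependent_iff] at h1
  push Not at h1
  obtain ⟨P, hP, hP0⟩ := h1
  have h2 : ∃ α β : Fin (d + 1) →₀ ℕ, α ≠ β ∧ w (RS.mon z α) = w (RS.mon z β) := by
    by_contra hne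
    push Not at hne
    obtain ⟨α, -, -, -, h3⟩ := h.poly z hz (fun α β hab => by
      by_contra hne'
      exact hne α β hne' hab) P hP0
    rw [hP, h.zero] at h3
    exact (h.pos _ (mon_ne_zero z hz α)).ne h3
  obtain ⟨α, β, hne, hab⟩ := h2
  have hfun : ∀ α : Fin (d + 1) →₀ ℕ, RS.mon z α = ∏ i, z i ^ (α i) := by
    intro α
    unfold RS.mon
    rw [Finsupp.prod_fintype]
    intro i
    exact pow_zero _
  let a : Fin (d + 1) → ℤ := fun i => (α i : ℤ) - β i
  have ha : w (∏ i, z i ^ a i) = 1 := by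
    have h3 : ∏ i, z i ^ a i = RS.mon z α / RS.mon z β := by
      rw [hfun, hfun, ← Finset.prod_div_distrib]
      refine Finset.prod_congr rfl fun i _ => ?_
      show z i ^ ((α i : ℤ) - β i) = _
      rw [zpow_sub₀ (hz i), zpow_natCast, zpow_natCast]
    rw [h3, h.div, hab, div_self (h.pos _ (mon_ne_zero z hz β)).ne']
  have ha0 : ∃ i, a i ≠ 0 := by
    by_contra hall
    push Not at hall
    apply hne
    ext i
    have := hall i
    have h4 : (α i : ℤ) - β i = 0 := this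
    omega
  obtain ⟨b, hb, hb1⟩ := Finset.extract_gcd a (Finset.univ_nonempty (α := Fin (d + 1)))
  refine ⟨b, ?_, ?_⟩
  · by_contra hall
    push Not at hall
    have h5 : (p : ℤ) ∣ Finset.univ.gcd b := Finset.dvd_gcd fun i _ => hall i
    rw [hb1] at h5
    have h6 := Int.le_of_dvd one_pos h5
    omega
  · obtain ⟨i0, hi0⟩ := ha0
    have hg : Finset.univ.gcd a ≠ 0 := by
      intro hg
      rw [Finset.gcd_eq_zero_iff] at hg
      exact hi0 (hg i0 (Finset.mem_univ _))
    have h6 : ∏ i, z i ^ a i = (∏ i, z i ^ b i) ^ (Finset.univ.gcd a) := by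
      rw [← Finset.prod_zpow]
      refine Finset.prod_congr rfl fun i _ => ?_
      rw [hb i (Finset.mem_univ _), mul_comm, zpow_mul]
    rw [h6, h.zpow] at ha
    by_contra hne1
    exact hg ((zpow_eq_one_iff_right₀ (h.nonneg _) hne1).1 ha)

/-- Lemma R: the rank of a group of isometries acting on a field of transcendence degree `d`. -/
theorem rank_bound [CharZero k] (h : NA k w) (hr : Res k w) (p : ℕ) [hp : Fact p.Prime]
    (M : IntermediateField k Ω) (d : ℕ) (hM : TD k (M : Set Ω) d) {G : Type*} [Group G]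
    (a : G →* (Ω ≃ₐ[k] Ω)) (hG : ∀ g, a g ∈ Iso k w) (hst : ∀ g, ∀ z ∈ M, a g z ∈ M)
    (hfin : (Set.range fun (g : G) (z : M) => a g (z : Ω)).Finite)
    {Q : Type*} [Group Q] (π : G →* Q) (h2 : ∀ g, π g ^ p = 1)
    (h1 : ∀ g : G, (∀ z ∈ M, a g z = z) → π g = 1) : Nat.card π.range ≤ p ^ d := by
  classical
  let χ : G →* (Mˣ →* kˣ) :=
    (MonoidHom.compHom' (Units.map (M.val : M →* Ω))).comp ((chi h hr).comp (a.codRestrict _ hG))
  have hχ : ∀ (g : G) (z : Mˣ), χ g z = chi h hr ⟨a g, hG g⟩ (Units.map (M.val : M →* Ω) z) :=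
    fun g z => rfl
  have hχc : ∀ (g : G) (z : Mˣ), ((χ g z : kˣ) : k) =
      res k w (a g (((z : M) : Ω)) / ((z : M) : Ω)) := fun g z => rfl
  have hfr : Finite χ.range := by
    have h3 : (χ.range : Set (Mˣ →* kˣ)).Finite := by
      have h4 : ∀ r ∈ (Set.range fun (g : G) (z : M) => a g (z : Ω)),
          ∃ c : Mˣ →* kˣ, ∀ g : G, (fun z : M => a g (z : Ω)) = r → χ g = c := by
        rintro r ⟨g0, rfl⟩
        refine ⟨χ g0, fun g hg => ?_⟩
        apply MonoidHom.ext
        intro z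
        apply Units.ext
        rw [hχc, hχc]
        have h5 := congrFun hg (z : M)
        simp only at h5
        rw [h5]
      choose! f hf using h4
      refine (hfin.image f).subset ?_
      rintro _ ⟨g, rfl⟩
      exact ⟨_, ⟨g, rfl⟩, (hf _ ⟨g, rfl⟩ g rfl).symm⟩
    exact h3
  have hker : χ.ker ≤ π.ker := by
    intro g hg
    rw [MonoidHom.mem_ker] at hg ⊢
    apply h1
    have hni : ¬ Function.Injective (fun i : ℕ => (⟨fun z : M => a (g ^ i) (z : Ω),
        ⟨g ^ i, rfl⟩⟩ : Set.range fun (g : G) (z : M) => a g (z : Ω))) := by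
      intro hinj
      have := hfin.to_subtype
      exact not_injective_infinite_finite _ hinj
    have hex : ∃ i j : ℕ, i < j ∧ ∀ z ∈ M, (a g ^ i) z = (a g ^ j) z := by
      have h3 : ∃ i j : ℕ, i ≠ j ∧ ∀ z ∈ M, (a g ^ i) z = (a g ^ j) z := by
        by_contra hall
        push Not at hall
        apply hni
        intro i j hij
        by_contra hne
        obtain ⟨z, hz, hzne⟩ := hall i j hne
        apply hzne
        have h4 := congrFun (congrArg Subtype.val hij) ⟨z, hz⟩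
        simp only [map_pow] at h4
        exact h4
      obtain ⟨i, j, hne, h3⟩ := h3
      rcases lt_or_gt_of_ne hne with hlt | hlt
      · exact ⟨i, j, hlt, h3⟩
      · exact ⟨j, i, hlt, fun z hz => (h3 z hz).symm⟩
    obtain ⟨i, j, hij, hz⟩ := hex
    refine tame h (a g) (hG g) M (hst g) ?_ (j - i) (by omega) ?_
    · intro z hzM hz0
      have h3 : χ g (Units.mk0 (⟨z, hzM⟩ : M) (by
        intro h0
        exact hz0 (congrArg Subtype.val h0))) = 1 := by
        rw [hg]
        rfl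
      rw [hχ] at h3
      exact chi_trivial h hr _ _ h3
    · intro z hzM
      apply (a g ^ i).injective
      rw [← AlgEquiv.mul_apply, ← pow_add, hz z hzM, Nat.add_sub_cancel' hij.le]
  refine (card_range_le p χ π hker h2).trans ?_
  let T : Set (Mˣ →* kˣ) := Subtype.val '' ((powMonoidHom p : χ.range →* χ.range).ker : Set χ.range)
  have hT : Nat.card T = Nat.card (powMonoidHom p : χ.range →* χ.range).ker :=
    Nat.card_image_of_injective Subtype.val_injective _
  rw [← hT]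
  refine card_chars_le p d T ((Set.toFinite _).image _) ?_ ?_
  · rintro _ ⟨c, hc, rfl⟩ z
    have h3 : c ^ p = 1 := hc
    have h4 : (c : Mˣ →* kˣ) ^ p = 1 := congrArg Subtype.val h3
    rw [← MonoidHom.pow_apply, h4, MonoidHom.one_apply]
  · intro z
    obtain ⟨b, hb, hw⟩ := relation h p hp.out.one_lt M d hM (fun i => ((z i : M) : Ω))
      (fun i => (z i : M).2) (fun i h0 => (z i).ne_zero (Subtype.ext h0))
    refine ⟨b, hb, ?_⟩
    rintro _ ⟨⟨_, ⟨g, rfl⟩⟩, -, rfl⟩
    have h3 : ∏ i, χ g (z i) ^ b i = χ g (∏ i, z i ^ b i) := by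
      rw [map_prod]
      exact Finset.prod_congr rfl fun i _ => (map_zpow _ _ _).symm
    show ∏ i, χ g (z i) ^ b i = 1
    rw [h3, hχ]
    apply chi_eq_one
    have h4 : ((Units.map (M.val : M →* Ω) (∏ i, z i ^ b i) : Ωˣ) : Ω) =
        ∏ i, ((z i : M) : Ω) ^ b i := by
      rw [map_prod, Units.coe_prod]
      refine Finset.prod_congr rfl fun i _ => ?_
      rw [map_zpow, Units.val_zpow_eq_zpow_val]
      rfl
    rw [h4]
    exact hw

end

end Pool.Agent.Helper15.RS
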