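import Pool.Agent.Helper15.RS.Na

/-!
# Project RS: the spectral norm over a complete field with algebraically closed residue field
-/

set_option autoImplicit false

namespace Pool.Agent.Helper15.RS

open Polynomial

universe u v

theorem sp_NA {k : Type*} {K : Type u} {M : Type v} [Field k] [NontriviallyNormedField K]
    [CompleteSpace K] [IsUltrametricDist K] [Field M] [Algebra K M] [Algebra.IsAlgebraic K M]
    [Algebra k K] [Algebra k M] [IsScalarTower k K M] (h : NA k (fun z : K => ‖z‖)) :
    NA k (spectralNorm K M) where
  zero := spectralNorm_zero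
  pos z hz := spectralNorm_zero_lt hz (Algebra.IsAlgebraic.isAlgebraic z)
  mul a b := spectralAlgNorm_mul a b
  add a b := isNonarchimedean_spectralNorm a b
  alg c hc := by
    rw [IsScalarTower.algebraMap_apply k K M, spectralNorm_extends]
    exact h.alg c hc

/-- if a monic polynomial over `k` is small at `y` then `y` is close to one of its roots -/
theorem root_near {k M : Type*} [Field k] [IsAlgClosed k] [Field M] [Algebra k M] {w : M → ℝ}
    (h : NA k w) (Q : k[X]) (hQ : Q.Monic) (y : M) (hy : w (aeval y Q) < 1) :
    ∃ c : k, w (y - algebraMap k M c) < 1 := by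
  by_contra hcon
  push Not at hcon
  have h1 : Q.Splits := IsAlgClosed.splits Q
  have h2 := h1.eq_prod_roots_of_monic hQ
  have h3 : ∀ s : Multiset k, 1 ≤ w (aeval y (s.map (fun a => X - C a)).prod) := by
    intro s
    induction s using Multiset.induction_on with
    | empty => rw [Multiset.map_zero, Multiset.prod_zero, map_one, h.one]
    | cons a s ih =>
      rw [Multiset.map_cons, Multiset.prod_cons, map_mul, h.mul, map_sub, aeval_X, aeval_C]
      exact one_le_mul_of_one_le_of_one_le (hcon a) ih
  rw [h2] at hy
  exact absurd (h3 Q.roots) (not_le.2 hy)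

theorem sp_res {k : Type*} {K : Type u} {M : Type v} [Field k] [IsAlgClosed k]
    [NontriviallyNormedField K]
    [CompleteSpace K] [IsUltrametricDist K] [Field M] [Algebra K M] [Algebra.IsAlgebraic K M]
    [Algebra k K] [Algebra k M] [IsScalarTower k K M] (h : NA k (fun z : K => ‖z‖))
    (hres : ∀ z : K, ‖z‖ = 1 → ∃ c : k, ‖z - algebraMap k K c‖ < 1) (y : M)
    (hy : spectralNorm K M y = 1) : ∃ c : k, spectralNorm K M (y - algebraMap k M c) < 1 := by
  have hNA := sp_NA (M := M) h
  have hint : IsIntegral K y := (Algebra.IsAlgebraic.isAlgebraic y).isIntegral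
  have hmon := minpoly.monic hint
  have hcoef : ∀ n : ℕ, ‖(minpoly K y).coeff n‖ ≤ 1 := (spectralValue_le_one_iff hmon).1 hy.le
  have hres' : ∀ a : K, ‖a‖ ≤ 1 → ∃ c : k, ‖a - algebraMap k K c‖ < 1 := by
    intro a ha
    rcases ha.lt_or_eq with h1 | h1
    · exact ⟨0, by rwa [map_zero, sub_zero]⟩
    · exact hres a h1
  choose c hc using fun n => hres' _ (hcoef n)
  set N := (minpoly K y).natDegree with hN
  set Q : k[X] := X ^ N + ∑ i ∈ Finset.range N, C (c i) * X ^ i with hQ
  have hQm : Q.Monic := by
    refine monic_X_pow_add ?_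
    refine mem_degreeLT.1 (Submodule.sum_mem _ fun i hi => mem_degreeLT.2 ?_)
    exact (degree_C_mul_X_pow_le i _).trans_lt (by exact_mod_cast Finset.mem_range.1 hi)
  refine root_near hNA Q hQm y ?_
  have h1 : aeval y Q = aeval y Q - aeval y (minpoly K y) := by
    rw [minpoly.aeval, sub_zero]
  have h2 : aeval y (minpoly K y) = y ^ N + ∑ i ∈ Finset.range N,
      algebraMap K M ((minpoly K y).coeff i) * y ^ i := by
    rw [aeval_eq_sum_range, ← hN, Finset.sum_range_succ, add_comm]
    have : (minpoly K y).coeff N = 1 := hmon
    rw [this, one_smul]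
    congr 1
    refine Finset.sum_congr rfl fun i _ => ?_
    rw [Algebra.smul_def]
  have h3 : aeval y Q = y ^ N + ∑ i ∈ Finset.range N, algebraMap k M (c i) * y ^ i := by
    rw [hQ, map_add, map_pow, aeval_X, map_sum]
    congr 1
    refine Finset.sum_congr rfl fun i _ => ?_
    rw [map_mul, aeval_C, map_pow, aeval_X]
  rw [h1, h2, h3, add_sub_add_left_eq_sub, ← Finset.sum_sub_distrib]
  refine hNA.sum_lt _ _ one_pos fun i _ => ?_
  rw [← sub_mul, hNA.mul, hNA.pow, hy, one_pow, mul_one, hNA.sub_comm,
    IsScalarTower.algebraMap_apply k K M, ← map_sub, spectralNorm_extends]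
  exact hc i

/-- every automorphism of `M` over an isometry of `K` is an isometry -/
theorem sp_iso {K : Type u} {M : Type v} [NontriviallyNormedField K]
    [CompleteSpace K] [IsUltrametricDist K] [Field M] [Algebra K M] [Algebra.IsAlgebraic K M]
    (τ : K ≃+* K) (hτ : ∀ z, ‖τ z‖ = ‖z‖) (σ : M ≃+* M)
    (hσ : ∀ z : K, σ (algebraMap K M z) = algebraMap K M (τ z)) (y : M) :
    spectralNorm K M (σ y) = spectralNorm K M y := by
  let f : AbsoluteValue M ℝ :=
    { toFun := fun y => spectralNorm K M (σ y)
      map_mul' := fun a b => by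
        show spectralNorm K M (σ (a * b)) = _
        rw [map_mul]
        exact spectralAlgNorm_mul _ _
      nonneg' := fun a => spectralNorm_nonneg _
      eq_zero' := fun a => by
        constructor
        · intro h
          have h1 := eq_zero_of_map_spectralNorm_eq_zero h (Algebra.IsAlgebraic.isAlgebraic _)
          exact (map_eq_zero_iff σ σ.injective).1 h1
        · rintro rfl
          show spectralNorm K M (σ 0) = 0
          rw [map_zero, spectralNorm_zero]
      add_le' := fun a b => by
        show spectralNorm K M (σ (a + b)) ≤ _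
        rw [map_add]
        exact isNonarchimedean_spectralNorm.add_le spectralNorm_nonneg }
  have h1 := spectralNorm_unique_field_norm_ext (f := f) (fun z => by
    show spectralNorm K M (σ (algebraMap K M z)) = ‖z‖
    rw [hσ, spectralNorm_extends, hτ]) y
  exact h1

end Pool.Agent.Helper15.RS
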